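import Mathlib

-- part MP_ea4e37_lc.H12.Val
section

/-! Non-archimedean absolute values with value group all positive reals; determinant bounds. -/

set_option autoImplicit false

namespace Pool.Agent.MP_ea4e37_lc.H12

open Finset Matrix

/-- A non-archimedean absolute value, trivial on the integers, with all positive values. -/
structure NA (K : Type) [Field K] where
  N : AbsoluteValue K ℝ
  na : IsNonarchimedean N
  nat : ∀ n : ℕ, n ≠ 0 → N n = 1
  τ : ℝ → K
  hτ : ∀ d, N (τ d) = Real.exp (-d)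

open Classical in
/-- The absolute value `exp (-order)` on Hahn series. -/
noncomputable def hahnN : AbsoluteValue (HahnSeries ℝ ℚ) ℝ where
  toFun x := if x = 0 then 0 else Real.exp (-x.order)
  map_mul' x y := by
    by_cases hx : x = 0
    · simp [hx]
    by_cases hy : y = 0
    · simp [hy]
    simp only [mul_eq_zero, hx, hy, or_self, if_false]
    rw [HahnSeries.order_mul hx hy, neg_add, Real.exp_add]
  nonneg' x := by
    by_cases hx : x = 0
    · simp [hx]
    · simp only [hx, if_false]; exact (Real.exp_pos _).le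
  eq_zero' x := by
    by_cases hx : x = 0
    · simp [hx]
    · simp [hx]
  add_le' x y := by
    by_cases hxy : x + y = 0
    · simp only [hxy, if_true]
      have h : ∀ z : HahnSeries ℝ ℚ, 0 ≤ (if z = 0 then (0 : ℝ) else Real.exp (-z.order)) := by
        intro z; split_ifs
        · exact le_rfl
        · exact (Real.exp_pos _).le
      exact add_nonneg (h x) (h y)
    by_cases hx : x = 0
    · simp [hx]
    by_cases hy : y = 0
    · simp [hy]
    simp only [hx, hy, hxy, if_false]
    have h := HahnSeries.min_order_le_order_add hxy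
    rcases min_le_iff.1 h with h | h
    · have := Real.exp_le_exp.2 (neg_le_neg h)
      linarith [Real.exp_pos (-y.order)]
    · have := Real.exp_le_exp.2 (neg_le_neg h)
      linarith [Real.exp_pos (-x.order)]

open Classical in
theorem hahnN_apply (x : HahnSeries ℝ ℚ) :
    hahnN x = if x = 0 then 0 else Real.exp (-x.order) := rfl

/-- The structure exists. -/
noncomputable def hahn : NA (HahnSeries ℝ ℚ) where
  N := hahnN
  na := by
    intro x y
    by_cases hxy : x + y = 0
    · rw [hxy, map_zero]; exact le_max_of_le_left (hahnN.nonneg _)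
    by_cases hx : x = 0
    · simp only [hx, zero_add, AbsoluteValue.map_zero, apply_nonneg, sup_of_le_right, Std.le_refl]
    by_cases hy : y = 0
    · simp [hy]
    simp only [hahnN_apply, hx, hy, hxy, if_false]
    have h := HahnSeries.min_order_le_order_add hxy
    rcases min_le_iff.1 h with h | h
    · exact le_max_of_le_left (Real.exp_le_exp.2 (neg_le_neg h))
    · exact le_max_of_le_right (Real.exp_le_exp.2 (neg_le_neg h))
  nat := by
    intro n hn
    have h : (n : HahnSeries ℝ ℚ) = HahnSeries.C (n : ℚ) := by simp only [map_natCast]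
    have h0 : (n : HahnSeries ℝ ℚ) ≠ 0 := by
      rw [h]; exact HahnSeries.C_ne_zero (by exact_mod_cast hn)
    rw [hahnN_apply, if_neg h0, h, HahnSeries.order_C]; simp
  τ := fun d => HahnSeries.single d 1
  hτ := by
    intro d
    rw [hahnN_apply, if_neg (HahnSeries.single_ne_zero one_ne_zero),
      HahnSeries.order_single one_ne_zero]

variable {K : Type} [Field K] (v : NA K)

theorem NA.add_le {x y : K} {B : ℝ} (hx : v.N x ≤ B) (hy : v.N y ≤ B) : v.N (x + y) ≤ B :=
  (v.na x y).trans (max_le hx hy)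

theorem NA.sum_le {α : Type} (s : Finset α) (f : α → K) {B : ℝ} (hB : 0 ≤ B)
    (h : ∀ i ∈ s, v.N (f i) ≤ B) : v.N (∑ i ∈ s, f i) ≤ B := by
  classical
  induction s using Finset.induction_on with
  | empty => simpa only [sum_empty, AbsoluteValue.map_zero] using hB
  | insert a s ha ih =>
    rw [Finset.sum_insert ha]
    exact v.add_le (h a (by simp)) (ih fun i hi => h i (by simp [hi]))

theorem NA.int_le (n : ℤ) : v.N n ≤ 1 := by
  rcases Int.natAbs_eq n with h | h
  · rw [h, Int.cast_natCast]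
    by_cases h0 : n.natAbs = 0
    · simp only [h0, Nat.cast_zero, AbsoluteValue.map_zero, zero_le_one]
    · exact (v.nat _ h0).le
  · rw [h, Int.cast_neg, Int.cast_natCast, v.N.map_neg]
    by_cases h0 : n.natAbs = 0
    · simp only [h0, Nat.cast_zero, AbsoluteValue.map_zero, zero_le_one]
    · exact (v.nat _ h0).le

theorem NA.rat_le (q : ℚ) : v.N q ≤ 1 := by
  rw [Rat.cast_def, map_div₀, v.nat _ q.den_ne_zero, div_one]
  exact v.int_le _

theorem NA.two : v.N 2 = 1 := by exact_mod_cast v.nat 2 (by norm_num)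

theorem NA.sign {ι : Type} [Fintype ι] [DecidableEq ι] (σ : Equiv.Perm ι) :
    v.N ((Equiv.Perm.sign σ : ℤ) : K) = 1 := by
  rcases Int.units_eq_one_or (Equiv.Perm.sign σ) with h | h <;> simp [h]

/-- `Q` holds outside finitely many proper subspaces. -/
def Gen {J : Type} (Q : (J → ℚ) → Prop) : Prop :=
  ∃ s : Finset (Submodule ℚ (J → ℚ)), ⊤ ∉ s ∧ ∀ c, (∀ p ∈ s, c ∉ p) → Q c

theorem Gen.exists {J : Type} {Q : (J → ℚ) → Prop} (h : Gen Q) : ∃ c, Q c := by
  obtain ⟨s, h1, h2⟩ := h
  obtain ⟨c, hc⟩ := Submodule.exists_forall_notMem_of_forall_ne_top (fun p : s => p.1)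
    fun p hp => h1 (hp ▸ p.2)
  exact ⟨c, h2 c fun p hp => hc ⟨p, hp⟩⟩

theorem Gen.mono {J : Type} {Q Q' : (J → ℚ) → Prop} (h : Gen Q) (h' : ∀ c, Q c → Q' c) :
    Gen Q' := by
  obtain ⟨s, h1, h2⟩ := h
  exact ⟨s, h1, fun c hc => h' c (h2 c hc)⟩

theorem Gen.of_forall {J : Type} {Q : (J → ℚ) → Prop} (h : ∀ c, Q c) : Gen Q :=
  ⟨∅, by simp, fun c _ => h c⟩

theorem Gen.and {J : Type} {Q Q' : (J → ℚ) → Prop} (h : Gen Q) (h' : Gen Q') :
    Gen fun c => Q c ∧ Q' c := by
  classical
  obtain ⟨s, h1, h2⟩ := h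
  obtain ⟨s', h1', h2'⟩ := h'
  exact ⟨s ∪ s', by simp [h1, h1'], fun c hc =>
    ⟨h2 c fun p hp => hc p (by simp [hp]), h2' c fun p hp => hc p (by simp [hp])⟩⟩

theorem Gen.all {J I : Type} [Finite I] {Q : I → (J → ℚ) → Prop} (h : ∀ i, Gen (Q i)) :
    Gen fun c => ∀ i, Q i c := by
  classical
  have := Fintype.ofFinite I
  choose s h1 h2 using h
  exact ⟨Finset.univ.biUnion s, by simp only [mem_biUnion, mem_univ, h1, and_false, exists_false, not_false_eq_true], fun c hc i =>
    h2 i c fun p hp => hc p (Finset.mem_biUnion.2 ⟨i, Finset.mem_univ _, hp⟩)⟩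

theorem Gen.multi {J I ι : Type} [Finite I] [Fintype ι] [DecidableEq ι]
    (G : I → (ι → J → ℚ) → Prop) (h0 : ∀ X, ∃ c, G X c)
    (h : ∀ X c i, G X c → Gen fun b => G X (Function.update c i b)) : ∃ c, ∀ X, G X c := by
  have key : ∀ R : Finset ι, ∃ c : ι → J → ℚ, ∀ X, ∃ c', (∀ i ∈ R, c' i = c i) ∧ G X c' := by
    intro R
    induction R using Finset.induction_on with
    | empty => exact ⟨0, fun X => (h0 X).imp fun c hc => ⟨by simp, hc⟩⟩
    | insert i₁ R hi ih =>
      obtain ⟨c, hc⟩ := ih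
      choose c' hc' hc'' using hc
      obtain ⟨b, hb⟩ := (Gen.all fun X => h X (c' X) i₁ (hc'' X)).exists
      refine ⟨Function.update c i₁ b, fun X => ⟨Function.update (c' X) i₁ b, ?_, hb X⟩⟩
      intro i hi'
      by_cases h : i = i₁
      · subst h; simp
      · rw [Function.update_of_ne h, Function.update_of_ne h]
        exact hc' X i ((Finset.mem_insert.1 hi').resolve_left h)
  obtain ⟨c, hc⟩ := key Finset.univ
  refine ⟨c, fun X => ?_⟩
  obtain ⟨c', h1, h2⟩ := hc X
  rwa [← show c' = c from funext fun i => h1 i (Finset.mem_univ _)]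

/-- Generic rational coefficients: no cancellation in a sum. -/
theorem NA.generic [CharZero K] {J L : Type} [Fintype L] (g : L → J) (u : L → K) (m : ℝ)
    (hm : 0 < m) (h : ∃ c : J → ℚ, m ≤ v.N (∑ j, (c (g j) : K) * u j)) :
    Gen fun c : J → ℚ => m ≤ v.N (∑ j, (c (g j) : K) * u j) := by
  let p : Submodule ℚ (J → ℚ) :=
    { carrier := {c | v.N (∑ j, (c (g j) : K) * u j) < m}
      add_mem' := by
        intro a b ha hb
        simp only [Set.mem_ofPred_eq, Pi.add_apply, Rat.cast_add, add_mul,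
          Finset.sum_add_distrib] at *
        exact (v.na _ _).trans_lt (max_lt ha hb)
      zero_mem' := by simpa only [Set.mem_ofPred_eq, Pi.zero_apply, Rat.cast_zero, zero_mul, sum_const_zero, AbsoluteValue.map_zero] using hm
      smul_mem' := by
        intro q a ha
        simp only [Set.mem_ofPred_eq, Pi.smul_apply, smul_eq_mul, Rat.cast_mul, mul_assoc,
          ← Finset.mul_sum, map_mul] at *
        exact (mul_le_of_le_one_left (v.N.nonneg _) (v.rat_le q)).trans_lt ha }
  refine ⟨{p}, ?_, fun c hc => not_lt.1 (hc p (by simp))⟩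
  rw [Finset.mem_singleton]
  intro hi
  obtain ⟨c, hc⟩ := h
  have : c ∈ p := hi ▸ Submodule.mem_top
  exact absurd this (not_lt.2 hc)

theorem NA.det_le {m : Type} [Fintype m] [DecidableEq m] (M : Matrix m m K) (w : m → ℝ)
    (h : ∀ i j, v.N (M i j) ≤ w j) : v.N M.det ≤ ∏ j, w j := by
  rw [Matrix.det_apply']
  refine v.sum_le _ _ (Finset.prod_nonneg fun j _ => (v.N.nonneg _).trans (h j j)) ?_
  intro σ _
  rw [map_mul, v.sign, one_mul, map_prod]
  exact Finset.prod_le_prod (fun j _ => v.N.nonneg _) fun j _ => h _ _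

/-- All maximal minors of the family `u` have absolute value at most `B`. -/
def Bd {m J : Type} [Fintype m] [DecidableEq m] (u : J → m → K) (B : ℝ) : Prop :=
  ∀ S : m → J, v.N (Matrix.det (Matrix.of fun j => u (S j))) ≤ B

variable {v}

theorem Bd.mono {m J J' L : Type} [Fintype m] [DecidableEq m] [Fintype L] {u : J → m → K}
    {B : ℝ} (hB : 0 ≤ B) (h : Bd v u B) (u' : J' → m → K) (c : J' → L → K) (g : J' → L → J)
    (hc : ∀ j l, v.N (c j l) ≤ 1) (hu : ∀ j, u' j = ∑ l, c j l • u (g j l)) : Bd v u' B := by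
  intro S
  have e : Matrix.det (Matrix.of fun j => u' (S j)) =
      (Matrix.detRowAlternating : (m → K) [⋀^m]→ₗ[K] K).toMultilinearMap
        fun j => ∑ l, c (S j) l • u (g (S j) l) := by
    simp only [← hu]; rfl
  rw [e, MultilinearMap.map_sum]
  refine v.sum_le _ _ hB fun r _ => ?_
  rw [MultilinearMap.map_smul_univ, smul_eq_mul, map_mul, map_prod]
  have h1 : ∏ j, v.N (c (S j) (r j)) ≤ 1 :=
    Finset.prod_le_one (fun j _ => v.N.nonneg _) fun j _ => hc _ _
  exact (mul_le_of_le_one_left (v.N.nonneg _) h1).trans (h fun j => g (S j) (r j))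

/-- Laplace bound for two blocks of coordinates. -/
theorem Bd.block {m J : Type} [Fintype m] [DecidableEq m] (T : m → Prop) [DecidablePred T]
    (u : J → m → K) {B₁ B₂ : ℝ} (hB₁ : 0 ≤ B₁) (hB₂ : 0 ≤ B₂)
    (h₁ : Bd v (fun j (i : {i // T i}) => u j i) B₁)
    (h₂ : Bd v (fun j (i : {i // ¬ T i}) => u j i) B₂) : Bd v u (B₁ * B₂) := by
  intro S
  let p : m → m → K := fun j i => if T i then u (S j) i else 0
  let q : m → m → K := fun j i => if T i then 0 else u (S j) i
  have e : Matrix.det (Matrix.of fun j => u (S j)) =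
      (Matrix.detRowAlternating : (m → K) [⋀^m]→ₗ[K] K) (p + q) := by
    have : (fun j => u (S j)) = p + q := by
      funext j i; simp only [p, q, Pi.add_apply]; split_ifs <;> simp
    rw [this]; rfl
  rw [e, AlternatingMap.map_add_univ]
  refine v.sum_le _ _ (mul_nonneg hB₁ hB₂) fun R _ => ?_
  set M : Matrix m m K := Matrix.of (R.piecewise p q) with hM
  change v.N M.det ≤ _
  by_cases h0 : M.det = 0
  · rw [h0, map_zero]; exact mul_nonneg hB₁ hB₂
  rw [Matrix.det_apply'] at h0
  obtain ⟨σ, -, hσ⟩ := Finset.exists_ne_zero_of_sum_ne_zero h0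
  have hσ' : ∀ i, M (σ i) i ≠ 0 := fun i =>
    Finset.prod_ne_zero_iff.1 (right_ne_zero_of_mul hσ) i (Finset.mem_univ _)
  have hR : ∀ i, σ i ∈ R ↔ T i := by
    intro i
    have := hσ' i
    by_cases hi : σ i ∈ R
    · simp only [hM, Matrix.of_apply, Finset.piecewise_eq_of_mem _ _ _ hi, p] at this
      simp only [hi, true_iff]
      by_contra ht; exact this (if_neg ht)
    · simp only [hM, Matrix.of_apply, Finset.piecewise_eq_of_notMem _ _ _ hi, q] at this
      simp only [hi, false_iff]
      intro ht; exact this (if_pos ht)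
  have e2 : v.N M.det = v.N (M.submatrix σ id).det := by
    rw [Matrix.det_permute, map_mul, v.sign, one_mul]
  rw [e2, Matrix.twoBlockTriangular_det _ T, map_mul]
  · refine mul_le_mul ?_ ?_ (v.N.nonneg _) hB₁
    · refine le_of_eq_of_le (congrArg (fun A => v.N (Matrix.det A)) ?_) (h₁ fun i => S (σ i))
      funext i j
      simp [Matrix.toSquareBlockProp, hM, Finset.piecewise_eq_of_mem _ _ _ ((hR i).2 i.2), p, j.2]
    · refine le_of_eq_of_le (congrArg (fun A => v.N (Matrix.det A)) ?_) (h₂ fun i => S (σ i))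
      funext i j
      have : σ i ∉ R := fun h => i.2 ((hR i).1 h)
      simp [Matrix.toSquareBlockProp, hM, Finset.piecewise_eq_of_notMem _ _ _ this, q, j.2]
  · intro i hi j hj
    have : σ i ∉ R := fun h => hi ((hR i).1 h)
    simp [hM, Finset.piecewise_eq_of_notMem _ _ _ this, q, hj]

/-- Maximum principle on the unit disc. -/
theorem NA.poly_le (B : ℝ) : ∀ (n : ℕ) (Q : Polynomial K) (i₀ : ℕ), Q.natDegree ≤ n →
    (∀ i : ℕ, i₀ ≤ i → v.N (Q.eval (i : K)) ≤ B) → ∀ s, v.N s ≤ 1 → v.N (Q.eval s) ≤ B := by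
  intro n
  induction n with
  | zero =>
    intro Q i₀ hd h s _
    have := h i₀ le_rfl
    rw [Polynomial.eq_C_of_natDegree_le_zero hd] at this ⊢
    simpa only [Polynomial.eval_C, ge_iff_le] using this
  | succ n ih =>
    intro Q i₀ hd h s hs
    let Q₁ := Q /ₘ (Polynomial.X - Polynomial.C (i₀ : K))
    have hQ : ∀ x, Q.eval x = Q.eval (i₀ : K) + (x - i₀) * Q₁.eval x := by
      intro x
      have := Polynomial.modByMonic_add_div Q (Polynomial.X - Polynomial.C (i₀ : K))
      rw [Polynomial.modByMonic_X_sub_C_eq_C_eval] at this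
      conv_lhs => rw [← this]
      simp only [map_natCast, Polynomial.eval_add, Polynomial.eval_C, Polynomial.eval_mul, Polynomial.eval_sub, Polynomial.eval_X, Polynomial.eval_natCast, Q₁]
    have hd₁ : Q₁.natDegree ≤ n := by
      have := Polynomial.natDegree_divByMonic Q (Polynomial.monic_X_sub_C (i₀ : K))
      rw [Polynomial.natDegree_X_sub_C] at this
      simp only [Q₁]; omega
    have h₁ : ∀ i : ℕ, i₀ + 1 ≤ i → v.N (Q₁.eval (i : K)) ≤ B := by
      intro i hi
      have e : ((i - i₀ : ℕ) : K) * Q₁.eval (i : K) = Q.eval (i : K) + -Q.eval (i₀ : K) := by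
        rw [hQ i, Nat.cast_sub (by omega)]; ring
      have := congrArg v.N e
      rw [map_mul, v.nat _ (by omega), one_mul] at this
      rw [this]
      exact v.add_le (h i (by omega)) (by rw [v.N.map_neg]; exact h i₀ le_rfl)
    rw [hQ s]
    refine v.add_le (h i₀ le_rfl) ?_
    rw [map_mul]
    have h2 : v.N (s - i₀) ≤ 1 := by
      rw [sub_eq_add_neg]
      refine v.add_le hs ?_
      rw [v.N.map_neg]; exact_mod_cast v.int_le (i₀ : ℤ)
    exact (mul_le_of_le_one_left (v.N.nonneg _) h2).trans (ih Q₁ (i₀ + 1) hd₁ h₁ s hs)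

/-- Interpolation between the value at `0` and the values at units. -/
theorem NA.poly_interp (P : Polynomial K) {B B' : ℝ}
    (h : ∀ i : ℕ, 1 ≤ i → v.N (P.eval (i : K)) ≤ B) (h0 : v.N (P.eval 0) ≤ B') (s : K)
    (hs : v.N s ≤ 1) (hs' : v.N s * B ≤ B') : v.N (P.eval s) ≤ B' := by
  have hQ : ∀ x, P.eval x = P.eval 0 + x * P.divX.eval x := by
    intro x
    conv_lhs => rw [← Polynomial.divX_mul_X_add P]
    simp only [Polynomial.coeff_zero_eq_eval_zero, Polynomial.eval_add, Polynomial.eval_mul, Polynomial.eval_X, Polynomial.eval_C]; ring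
  have h00 : v.N (P.eval 0) ≤ B := NA.poly_le B _ P 1 le_rfl h 0 (by simp)
  have h₁ : ∀ i : ℕ, 1 ≤ i → v.N (P.divX.eval (i : K)) ≤ B := by
    intro i hi
    have e : (i : K) * P.divX.eval (i : K) = P.eval (i : K) + -P.eval 0 := by
      rw [hQ i]; ring
    have := congrArg v.N e
    rw [map_mul, v.nat _ (by omega), one_mul] at this
    rw [this]
    exact v.add_le (h i hi) (by rw [v.N.map_neg]; exact h00)
  rw [hQ s]
  refine v.add_le h0 ?_
  rw [map_mul]
  exact (mul_le_mul_of_nonneg_left (NA.poly_le B _ _ 1 le_rfl h₁ s hs) (v.N.nonneg _)).trans hs'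

end Pool.Agent.MP_ea4e37_lc.H12

end

-- part MP_ea4e37_lc.H12.Sym
section

/-! The symmetric square of a matrix and its determinant. -/

set_option autoImplicit false

namespace Pool.Agent.MP_ea4e37_lc.H12

open Finset Matrix

variable {ι : Type} [Fintype ι] [LinearOrder ι]

theorem prod_sym2_sq {M : Type} [CommMonoid M] (G : Sym2 ι → M) :
    (∏ p, G p) ^ 2 = (∏ i, ∏ j, G s(i, j)) * ∏ i, G s(i, i) := by
  have h1 : ∏ p, G p = ∏ x ∈ (univ : Finset (ι × ι)).filter (fun x => x.1 ≤ x.2), G s(x.1, x.2) := by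
    symm
    refine Finset.prod_bij (fun x _ => s(x.1, x.2)) (by simp only [mem_filter, mem_univ, true_and, implies_true]) ?_ ?_ (by simp only [mem_filter, mem_univ, true_and, implies_true])
    · rintro ⟨a, b⟩ ha ⟨c, d⟩ hc h
      simp only [mem_filter, mem_univ, true_and] at ha hc
      rcases Sym2.eq_iff.1 h with ⟨h1, h2⟩ | ⟨h1, h2⟩
      · exact Prod.ext h1 h2
      · simp only at h1 h2
        subst h1 h2
        have := le_antisymm ha hc
        subst this; rfl
    · intro p _
      induction p using Sym2.ind with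
      | _ a b =>
        rcases le_total a b with h | h
        · exact ⟨(a, b), by simpa only [mem_filter, mem_univ, true_and] using h, rfl⟩
        · exact ⟨(b, a), by simpa only [mem_filter, mem_univ, true_and] using h, Sym2.eq_swap⟩
  have h2 : ∏ p, G p = ∏ x ∈ (univ : Finset (ι × ι)).filter (fun x => x.2 ≤ x.1), G s(x.1, x.2) := by
    rw [h1]
    refine Finset.prod_bij (fun x _ => x.swap) (by simp only [mem_filter, mem_univ, true_and, Prod.snd_swap, Prod.fst_swap, imp_self, implies_true]) (by simp only [mem_filter, mem_univ, true_and, Prod.swap_inj, imp_self, implies_true]) ?_ ?_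
    · intro x hx; exact ⟨x.swap, by simpa only [mem_filter, mem_univ, Prod.fst_swap, Prod.snd_swap, true_and] using hx, by simp⟩
    · intro x _; simp [Sym2.eq_swap]
  have h3 : (univ : Finset (ι × ι)).filter (fun x => x.1 ≤ x.2) ∪
      (univ : Finset (ι × ι)).filter (fun x => x.2 ≤ x.1) = univ := by
    ext x; simp only [mem_union, mem_filter, mem_univ, true_and, le_total]
  have h4 : ∏ x ∈ (univ : Finset (ι × ι)).filter (fun x => x.1 ≤ x.2) ∩
      (univ : Finset (ι × ι)).filter (fun x => x.2 ≤ x.1), G s(x.1, x.2) = ∏ i, G s(i, i) := by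
    symm
    refine Finset.prod_bij (fun i _ => (i, i)) (by simp only [mem_univ, mem_inter, mem_filter, Std.le_refl, and_self, imp_self, implies_true]) (by simp only [mem_univ, Prod.mk.injEq, and_self, imp_self, implies_true]) ?_ (by simp only [mem_univ, imp_self, implies_true])
    rintro ⟨a, b⟩ h
    simp only [mem_inter, mem_filter, mem_univ, true_and] at h
    exact ⟨a, by simp only [mem_univ], by rw [le_antisymm h.1 h.2]⟩
  rw [sq]
  conv_lhs => rw [h1]; rhs; rw [← h1, h2]
  rw [← Finset.prod_union_inter, h3, h4, ← Fintype.prod_prod_type']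

/-- The symmetric product of two vectors. -/
def sq2 {R : Type} [CommRing R] (u w : ι → R) : Sym2 ι → R :=
  Sym2.lift ⟨fun i j => u i * w j + u j * w i, fun _ _ => add_comm _ _⟩

omit [Fintype ι] [LinearOrder ι] in
@[simp] theorem sq2_mk {R : Type} [CommRing R] (u w : ι → R) (i j : ι) :
    sq2 u w s(i, j) = u i * w j + u j * w i := rfl

variable {K : Type} [Field K]

/-- The symmetric square of a matrix. -/
def S2 (g : Matrix ι ι K) : (Sym2 ι → K) →ₗ[K] (Sym2 ι → K) where
  toFun w := Sym2.lift ⟨fun a b => ∑ a', ∑ b', g a a' * g b b' * w s(a', b'), fun a b => by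
    beta_reduce
    rw [Finset.sum_comm]
    refine Finset.sum_congr rfl fun x _ => Finset.sum_congr rfl fun y _ => ?_
    rw [Sym2.eq_swap]; ring⟩
  map_add' w w' := by
    funext p
    induction p using Sym2.ind with
    | _ a b => simp only [Pi.add_apply, mul_add, sum_add_distrib, Sym2.lift_mk]
  map_smul' c w := by
    funext p
    induction p using Sym2.ind with
    | _ a b =>
      simp only [Sym2.lift_mk, Pi.smul_apply, smul_eq_mul, RingHom.id_apply, Finset.mul_sum]
      refine Finset.sum_congr rfl fun x _ => Finset.sum_congr rfl fun y _ => by ring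

omit [LinearOrder ι] in
theorem S2_mk (g : Matrix ι ι K) (w : Sym2 ι → K) (a b : ι) :
    S2 g w s(a, b) = ∑ a', ∑ b', g a a' * g b b' * w s(a', b') := rfl

omit [LinearOrder ι] in
theorem S2_sq2 (g : Matrix ι ι K) (u w : ι → K) : S2 g (sq2 u w) = sq2 (g *ᵥ u) (g *ᵥ w) := by
  funext p
  induction p using Sym2.ind with
  | _ a b =>
    rw [S2_mk, sq2_mk]
    simp only [sq2_mk, Matrix.mulVec, dotProduct, Finset.sum_mul_sum, mul_add,
      Finset.sum_add_distrib]
    congr 1
    · refine Finset.sum_congr rfl fun x _ => Finset.sum_congr rfl fun y _ => by ring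
    · rw [Finset.sum_comm]
      refine Finset.sum_congr rfl fun x _ => Finset.sum_congr rfl fun y _ => by ring

omit [LinearOrder ι] in
theorem S2_mat (g : Matrix ι ι K) (w : Sym2 ι → K) :
    (Matrix.of fun a b => S2 g w s(a, b)) = g * (Matrix.of fun a b => w s(a, b)) * gᵀ := by
  ext a b
  rw [Matrix.of_apply, S2_mk, Finset.sum_comm]
  simp only [Matrix.mul_apply, Finset.sum_mul, Matrix.of_apply, Matrix.transpose_apply]
  refine Finset.sum_congr rfl fun x _ => Finset.sum_congr rfl fun y _ => by ring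

omit [LinearOrder ι] in
theorem S2_mul (g h : Matrix ι ι K) : S2 (g * h) = S2 g ∘ₗ S2 h := by
  refine LinearMap.ext fun w => ?_
  funext p
  induction p using Sym2.ind with
  | _ a b =>
    have h1 := congrFun (congrFun (S2_mat (g * h) w) a) b
    have h2 := congrFun (congrFun (S2_mat g (S2 h w)) a) b
    rw [S2_mat h w] at h2
    rw [Matrix.of_apply] at h1 h2
    rw [LinearMap.comp_apply, h1, h2, Matrix.transpose_mul]
    simp only [Matrix.mul_assoc]

theorem S2_diagonal (D : ι → K) : S2 (Matrix.diagonal D) =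
    Matrix.toLin' (Matrix.diagonal (Sym2.lift ⟨fun a b => D a * D b, fun _ _ => mul_comm _ _⟩)) := by
  refine LinearMap.ext fun w => ?_
  funext p
  induction p using Sym2.ind with
  | _ a b =>
    rw [S2_mk, Matrix.toLin'_apply, Matrix.mulVec_diagonal]
    simp only [diagonal_apply, mul_ite, ite_mul, zero_mul, mul_zero, sum_ite_eq, mem_univ, ↓ reduceIte, Sym2.lift_mk]

/-- Determinant of the symmetric square. -/
noncomputable def δ (g : Matrix ι ι K) : K := LinearMap.det (S2 g)

omit [LinearOrder ι] in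
theorem δ_mul (g h : Matrix ι ι K) : δ (g * h) = δ g * δ h := by
  simp [δ, S2_mul]

theorem δ_diagonal (v : NA K) (D : ι → K) :
    v.N (δ (Matrix.diagonal D)) = v.N (Matrix.diagonal D).det ^ (Fintype.card ι + 1) := by
  rw [δ, S2_diagonal, LinearMap.det_toLin', Matrix.det_diagonal, Matrix.det_diagonal]
  have h := prod_sym2_sq (Sym2.lift ⟨fun a b => D a * D b, fun _ _ => mul_comm _ _⟩ : Sym2 ι → K)
  simp only [Sym2.lift_mk, Finset.prod_mul_distrib, Finset.prod_const, Finset.card_univ,
    Finset.prod_pow] at h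
  have h2 := congrArg v.N h
  rw [← pow_left_inj₀ (v.N.nonneg _) (pow_nonneg (v.N.nonneg _) _) two_ne_zero, ← map_pow, h2]
  simp only [map_mul, map_pow]; ring

theorem δ_transvection (v : NA K) (i j : ι) (hij : i ≠ j) (c : K) :
    δ (Matrix.transvection i j c) = 1 := by
  have h1 : δ (1 : Matrix ι ι K) = 1 := by
    have : S2 (1 : Matrix ι ι K) = LinearMap.id := by
      refine LinearMap.ext fun w => ?_
      funext p
      induction p using Sym2.ind with
      | _ a b => rw [S2_mk]; simp only [Matrix.one_apply, mul_ite, mul_one, mul_zero, ite_mul, one_mul, zero_mul, sum_ite_eq, mem_univ, ↓ reduceIte, LinearMap.id_coe, id_eq]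
    simp [δ, this]
  have hadd : ∀ c d : K, δ (Matrix.transvection i j (c + d)) =
      δ (Matrix.transvection i j c) * δ (Matrix.transvection i j d) := by
    intro c d
    rw [← δ_mul, Matrix.transvection_mul_transvection_same _ _ hij]
  have hne : δ (Matrix.transvection i j c) ≠ 0 := by
    intro h
    have := hadd c (-c)
    rw [add_neg_cancel, Matrix.transvection_zero, h1, h, zero_mul] at this
    exact one_ne_zero this
  let D : ι → K := Function.update 1 i 2
  have hD : δ (Matrix.diagonal D) ≠ 0 := by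
    intro h
    have := δ_diagonal v D
    rw [h, map_zero, Matrix.det_diagonal, Finset.prod_update_of_mem (Finset.mem_univ _)] at this
    simp only [Pi.one_apply, prod_const_one, mul_one, v.two, one_pow, zero_ne_one] at this
  have e : Matrix.diagonal D * Matrix.transvection i j c =
      Matrix.transvection i j (c + c) * Matrix.diagonal D := by
    ext a b
    rw [Matrix.diagonal_mul, Matrix.mul_diagonal]
    simp only [Matrix.transvection, Matrix.add_apply, Matrix.one_apply, Matrix.single_apply, D]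
    by_cases hab : a = b
    · subst hab
      have : ¬ (i = a ∧ j = a) := fun h => hij (h.1.trans h.2.symm)
      simp [this]
    · by_cases h : i = a ∧ j = b
      · obtain ⟨rfl, rfl⟩ := h
        simp [hab, Function.update_of_ne (Ne.symm hab)]; ring
      · simp [hab, h]
  have := congrArg δ e
  rw [δ_mul, δ_mul, hadd, mul_comm] at this
  have := mul_right_cancel₀ hD this
  exact (mul_eq_left₀ hne).1 this.symm

theorem δ_norm (v : NA K) (g : Matrix ι ι K) (hg : g.det ≠ 0) :
    v.N (δ g) = v.N g.det ^ (Fintype.card ι + 1) := by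
  refine Matrix.diagonal_transvection_induction_of_det_ne_zero
    (fun g => v.N (δ g) = v.N g.det ^ (Fintype.card ι + 1)) g hg (fun D _ => δ_diagonal v D) ?_ ?_
  · intro t
    rw [Matrix.TransvectionStruct.det, Matrix.TransvectionStruct.toMatrix,
      δ_transvection v _ _ t.hij]
    simp only [AbsoluteValue.map_one, one_pow]
  · intro A B _ _ hA hB
    rw [δ_mul, Matrix.det_mul, map_mul, map_mul, hA, hB, mul_pow]

theorem det_S2 (g : Matrix ι ι K) (r : Sym2 ι → Sym2 ι → K) :
    Matrix.det (Matrix.of fun p => S2 g (r p)) = δ g * Matrix.det (Matrix.of r) := by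
  have := (Pi.basisFun K (Sym2 ι)).det_comp (S2 g) r
  rw [Pi.basisFun_det_apply, Pi.basisFun_det_apply] at this
  exact this

end Pool.Agent.MP_ea4e37_lc.H12

end

-- part MP_ea4e37_lc.H12.Step
section

/-! The potential and its increase when a request with a penalty arrives. -/

set_option autoImplicit false

namespace Pool.Agent.MP_ea4e37_lc.H12

open Finset Matrix

variable {ι : Type} [Fintype ι] [LinearOrder ι] {K : Type} [Field K] {P : Type}

/-- Generators of the lattice in the symmetric square. -/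
def gen (v : NA K) (d : P → P → ℝ) (a : P → ι → K) : P × P → Sym2 ι → K :=
  fun x => v.τ (-d x.1 x.2) • sq2 (a x.1) (a x.2)

/-- Replacement of the coordinate `i₀`. -/
def upd (i₀ : ι) (σ : K) (γ : P → K) (a : P → ι → K) : P → ι → K :=
  fun x => Function.update (a x) i₀ (σ * a x i₀ + γ x)

variable {v : NA K} {d : P → P → ℝ}

theorem NA.τ_ne (v : NA K) (x : ℝ) : v.τ x ≠ 0 := by
  intro h
  have := v.hτ x
  rw [h, map_zero] at this
  exact (Real.exp_pos _).ne this

theorem Bd.nonneg {m J : Type} [Fintype m] [DecidableEq m] [Nonempty J] {u : J → m → K} {B : ℝ}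
    (h : Bd v u B) : 0 ≤ B := (v.N.nonneg _).trans (h fun _ => Classical.arbitrary J)

theorem Bd.reindex {m m' J : Type} [Fintype m] [DecidableEq m] [Fintype m'] [DecidableEq m']
    {u : J → m → K} {B : ℝ} (h : Bd v u B) (E : m' ≃ m) : Bd v (fun j i => u j (E i)) B := by
  intro S
  have := h fun i => S (E.symm i)
  rw [← Matrix.det_submatrix_equiv_self E] at this
  refine le_of_eq_of_le (congrArg (fun A => v.N (Matrix.det A)) ?_) this
  funext i j; simp

theorem gen_mul {a : P → ι → K} {B : ℝ} (h : Bd v (gen v d a) B) (g : Matrix ι ι K)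
    (hg : g.det ≠ 0) :
    Bd v (gen v d fun x => g *ᵥ a x) (v.N g.det ^ (Fintype.card ι + 1) * B) := by
  intro S
  have e : (fun p => gen v d (fun x => g *ᵥ a x) (S p)) = fun p => S2 g (gen v d a (S p)) := by
    funext p; simp only [gen, map_smul, S2_sq2]
  rw [e, det_S2, map_mul, δ_norm v g hg]
  exact mul_le_mul_of_nonneg_left (h S) (pow_nonneg (v.N.nonneg _) _)

theorem gen_col (hs : ∀ x y, d x y = d y x) (ht : ∀ x y z, d x z ≤ d x y + d y z)
    {a : P → ι → K} {B : ℝ} (h : Bd v (gen v d a) B) (r : P) (hr : d r r = 0) (γ : P → K)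
    (hγ : ∀ x, v.N (γ x) ≤ Real.exp (-d r x)) :
    Bd v (gen v d fun x => a x + γ x • a r) B := by
  have : Nonempty (P × P) := ⟨(r, r)⟩
  refine h.mono h.nonneg _ (L := Fin 4)
    (fun x => ![1, v.τ (-d x.1 x.2) * γ x.2 / v.τ (-d x.1 r), v.τ (-d x.1 x.2) * γ x.1 / v.τ (-d r x.2),
      v.τ (-d x.1 x.2) * γ x.1 * γ x.2 / v.τ (-d r r)])
    (fun x => ![x, (x.1, r), (r, x.2), (r, r)]) ?_ ?_
  · rintro ⟨x, y⟩ l
    have hx := hγ x
    have hy := hγ y
    have hxy : Real.exp (d x y) ≤ Real.exp (d r x) * Real.exp (d r y) := by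
      rw [← Real.exp_add]; exact Real.exp_le_exp.2 (by rw [hs r x]; exact ht x r y)
    rw [Real.exp_neg] at hx hy
    have px := Real.exp_pos (d r x)
    have py := Real.exp_pos (d r y)
    have hx' : v.N (γ x) * Real.exp (d r x) ≤ 1 := by rwa [← le_div_iff₀ px, one_div]
    have hy' : v.N (γ y) * Real.exp (d r y) ≤ 1 := by rwa [← le_div_iff₀ py, one_div]
    have nx := v.N.nonneg (γ x)
    have ny := v.N.nonneg (γ y)
    fin_cases l
    · simp only [Fin.zero_eta, Fin.isValue, cons_val_zero, AbsoluteValue.map_one, Std.le_refl]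
    · simp only [Fin.mk_one, Matrix.cons_val_one, Matrix.cons_val_zero, map_div₀, map_mul, v.hτ,
        neg_neg]
      rw [hs x r, div_le_one px]
      nlinarith only [mul_le_mul_of_nonneg_right hxy ny, px, hy']
    · simp only [Fin.reduceFinMk, Matrix.cons_val, map_div₀, map_mul, v.hτ, neg_neg]
      rw [div_le_one py]
      nlinarith only [mul_le_mul_of_nonneg_right hxy nx, py, hx']
    · simp only [Fin.reduceFinMk, Matrix.cons_val, map_div₀, map_mul, v.hτ, neg_neg, hr,
        neg_zero, Real.exp_zero, div_one]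
      calc _ ≤ Real.exp (d r x) * Real.exp (d r y) * v.N (γ x) * v.N (γ y) := by gcongr
        _ = (v.N (γ x) * Real.exp (d r x)) * (v.N (γ y) * Real.exp (d r y)) := by ring
        _ ≤ 1 := mul_le_one₀ hx' (by positivity) hy'
  · rintro ⟨x, y⟩
    funext p
    induction p using Sym2.ind with
    | _ i j =>
      have h1 := v.τ_ne (-d x r)
      have h2 := v.τ_ne (-d r y)
      have h3 := v.τ_ne (-d r r)
      simp only [gen, Fin.sum_univ_four, Pi.add_apply, Pi.smul_apply, smul_eq_mul, sq2_mk,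
        Matrix.cons_val_zero, Matrix.cons_val_one, Matrix.cons_val]
      field_simp
      ring

theorem gen_unit (hs : ∀ x y, d x y = d y x) (ht : ∀ x y z, d x z ≤ d x y + d y z)
    {a : P → ι → K} {B : ℝ} (h : Bd v (gen v d a) B) (r : P) (hr : d r r = 0) (i₀ : ι)
    (ha : a r = Pi.single i₀ 1) (γ : P → K) (hγ : ∀ x, v.N (γ x) ≤ Real.exp (-d r x)) (σ : K)
    (hσ : v.N σ = 1) : Bd v (gen v d (upd i₀ σ γ a)) B := by
  have h0 : σ ≠ 0 := by rintro rfl; simp at hσ
  have h1 := gen_col hs ht h r hr (fun x => γ x / σ) (by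
    intro x; rw [map_div₀, hσ, div_one]; exact hγ x)
  have hdet : (Matrix.diagonal (Function.update (1 : ι → K) i₀ σ)).det = σ := by
    rw [Matrix.det_diagonal, Finset.prod_update_of_mem (Finset.mem_univ _)]; simp only [Pi.one_apply, prod_const_one, mul_one]
  have h2 := gen_mul h1 (Matrix.diagonal (Function.update 1 i₀ σ)) (by rwa [hdet])
  rw [hdet, hσ, one_pow, one_mul] at h2
  convert h2 using 2
  funext x i
  rw [Matrix.mulVec_diagonal, ha]
  by_cases hi : i = i₀
  · subst hi; simp [upd]; field_simp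
  · simp [upd, Function.update_of_ne hi, Pi.single_eq_of_ne hi]

omit [LinearOrder ι] in
theorem det_upd [DecidableEq ι] (M : Matrix ι ι K) (i₀ : ι) (σ : K) (γ : ι → K) :
    Matrix.det (Matrix.of fun i => Function.update (M i) i₀ (σ * M i i₀ + γ i)) =
      σ * M.det + ∑ i, γ i * (M.updateRow i (Pi.single i₀ 1)).det := by
  have e : (Matrix.of fun i => Function.update (M i) i₀ (σ * M i i₀ + γ i)) =
      M.updateCol i₀ (σ • (fun i => M i i₀) + γ) := by
    ext i j
    by_cases hj : j = i₀
    · subst hj; simp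
    · simp [Function.update_of_ne hj, Matrix.updateCol_ne hj]
  rw [e, Matrix.det_updateCol_add, Matrix.det_updateCol_smul, Matrix.updateCol_eq_self,
    ← Matrix.cramer_apply, Matrix.cramer_eq_adjugate_mulVec]
  simp only [Matrix.mulVec, dotProduct, Matrix.adjugate_apply, mul_comm]

omit [LinearOrder ι] in
theorem single_eq_sum [DecidableEq ι] (M : Matrix ι ι K) (hM : M.det ≠ 0) (i₀ : ι) :
    (Pi.single i₀ 1 : ι → K) =
      ∑ j, ((M.updateRow j (Pi.single i₀ 1)).det / M.det) • M j := by
  funext l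
  have := congrFun (congrFun (Matrix.adjugate_mul M) i₀) l
  simp only [Matrix.mul_apply, Matrix.adjugate_apply, Matrix.smul_apply, smul_eq_mul] at this
  simp only [Finset.sum_apply, Pi.smul_apply, smul_eq_mul, div_mul_eq_mul_div,
    ← Finset.sum_div, this]
  rw [mul_div_cancel_left₀ _ hM, Matrix.one_apply, Pi.single_apply]
  simp [eq_comm]

theorem exists_cf {a : P → ι → K} (r : P) (i₀ : ι) (ha : a r = Pi.single i₀ 1)
    (Z : ι → P) (hZ : (Matrix.of fun i => a (Z i)).det ≠ 0) (κ : ℝ)
    (hκ : ∀ i, v.N ((Matrix.of fun i => a (Z i)).updateRow i (Pi.single i₀ 1)).det *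
      Real.exp (-d r (Z i)) ≤ κ * v.N (Matrix.of fun i => a (Z i)).det) :
    ∃ cf : ι → K, (∀ l, v.N (cf l) ≤ κ) ∧ a r = ∑ l, cf l • v.τ (-d r (Z l)) • a (Z l) := by
  refine ⟨fun j => ((Matrix.of fun i => a (Z i)).updateRow j
    (Pi.single i₀ 1)).det / (Matrix.of fun i => a (Z i)).det / v.τ (-d r (Z j)), fun j => ?_, ?_⟩
  · rw [map_div₀, map_div₀, v.hτ, neg_neg, div_div,
      div_le_iff₀ (mul_pos (v.N.pos hZ) (Real.exp_pos _))]
    have := mul_le_mul_of_nonneg_right (hκ j) (Real.exp_pos (d r (Z j))).le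
    rw [mul_assoc, ← Real.exp_add] at this
    simpa only [ge_iff_le, neg_add_cancel, Real.exp_zero, mul_one, mul_assoc] using this
  · conv_lhs => rw [ha, single_eq_sum _ hZ i₀]
    refine Finset.sum_congr rfl fun j _ => ?_
    simp only [smul_smul]
    rw [div_mul_cancel₀ _ (v.τ_ne _)]; rfl

/-- Change of basis that sends `a r` to a basis vector. -/
def nrm (a : P → ι → K) (r : P) (i₀ : ι) : P → ι → K :=
  fun x i => a x i - a x i₀ / a r i₀ * (a r i - (Pi.single i₀ 1 : ι → K) i)

omit [Fintype ι] in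
theorem nrm_self {a : P → ι → K} {r : P} {i₀ : ι} (h : a r i₀ ≠ 0) :
    nrm a r i₀ r = Pi.single i₀ 1 := by
  funext i; simp [nrm, h]

theorem nrm_spec {a : P → ι → K} {r : P} {i₀ : ι} (hi₀ : a r i₀ ≠ 0) :
    ∃ g : Matrix ι ι K, g.det ≠ 0 ∧ nrm a r i₀ = fun x => g *ᵥ a x := by
  let h : Matrix ι ι K := (1 : Matrix ι ι K).updateCol i₀ (a r)
  have hdet : h.det = a r i₀ := by
    rw [← Matrix.cramer_apply, Matrix.cramer_one]; rfl
  have hu : IsUnit h.det := by rw [hdet]; exact hi₀.isUnit
  refine ⟨h⁻¹, (Matrix.isUnit_nonsing_inv_det h hu).ne_zero, funext fun x => ?_⟩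
  have : h *ᵥ nrm a r i₀ x = a x := by
    funext l
    have e : ∀ j, h l j * nrm a r i₀ x j = (if j = i₀ then a r l * (a x i₀ / a r i₀) else 0) +
        if j = l then (if l = i₀ then 0 else a x l - a x i₀ / a r i₀ * a r l) else 0 := by
      intro j
      by_cases hj : j = i₀
      · subst hj
        by_cases hl : j = l
        · subst hl; simp only [h, updateCol_self, nrm, Pi.single_eq_same, ↓ reduceIte, add_zero, mul_eq_mul_left_iff, hi₀, or_false]; field_simp; ring
        · simp only [h, updateCol_self, nrm, Pi.single_eq_same, ↓ reduceIte, hl, add_zero, mul_eq_mul_left_iff]; left; field_simp; ring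
      · by_cases hl : j = l
        · subst hl; simp [h, nrm, hj]
        · simp [h, hj, hl, Matrix.one_apply_ne (Ne.symm hl)]
    simp only [Matrix.mulVec, dotProduct, e, Finset.sum_add_distrib, Finset.sum_ite_eq',
      Finset.mem_univ, if_true]
    split_ifs with hl
    · subst hl; field_simp; ring
    · ring
  rw [← this, Matrix.mulVec_mulVec, Matrix.nonsing_inv_mul _ hu, Matrix.one_mulVec]

/-- Pairs containing `i₀`. -/
noncomputable def topE (i₀ : ι) : ι ≃ {p : Sym2 ι // i₀ ∈ p} :=
  Equiv.ofBijective (fun j => ⟨s(i₀, j), Sym2.mem_mk_left _ _⟩) ⟨fun _ _ h =>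
    Sym2.congr_right.1 (congrArg Subtype.val h), fun p => by
      obtain ⟨y, hy⟩ := Sym2.mem_iff_exists.1 p.2
      exact ⟨y, Subtype.ext hy.symm⟩⟩

omit [Fintype ι] [LinearOrder ι] in
theorem topE_val (i₀ j : ι) : (topE i₀ j).1 = s(i₀, j) := rfl

theorem gen_zero [Finite P] (hs : ∀ x y, d x y = d y x) (ht : ∀ x y z, d x z ≤ d x y + d y z)
    {a : P → ι → K} {B : ℝ} (h : Bd v (gen v d a) B) (r : P) (i₀ : ι)
    (ha : a r = Pi.single i₀ 1) (γ : P → K) (hγ : ∀ x, v.N (γ x) ≤ Real.exp (-d r x))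
    {L : Type} [Fintype L] (Z : L → P) (κ : ℝ) (hκ0 : 0 ≤ κ) (cf : L → K)
    (hκ : ∀ l, v.N (cf l) ≤ κ) (e2 : a r = ∑ l, cf l • v.τ (-d r (Z l)) • a (Z l)) :
    Bd v (gen v d (upd i₀ 0 γ a)) (κ * B) := by
  have : Nonempty P := ⟨r⟩
  let f : P → ι → K := fun y => v.τ (-d r y) • a y
  let bot : P × P → {p : Sym2 ι // ¬ i₀ ∈ p} → K := fun x p => gen v d a x p
  obtain ⟨X, hX⟩ := Finite.exists_max fun X : ι → P => v.N (Matrix.of fun i => f (X i)).det
  obtain ⟨Q, hQ⟩ := Finite.exists_max fun Q : {p : Sym2 ι // ¬ i₀ ∈ p} → P × P =>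
    v.N (Matrix.of fun i => bot (Q i)).det
  set B₁ := v.N (Matrix.of fun i => f (X i)).det with hB₁
  set B₂ := v.N (Matrix.of fun i => bot (Q i)).det with hB₂
  have hB : B₁ * B₂ ≤ B := by
    have := h fun p => if hp : i₀ ∈ p then (r, X ((topE i₀).symm ⟨p, hp⟩)) else Q ⟨p, hp⟩
    rw [Matrix.twoBlockTriangular_det' _ (fun p => i₀ ∈ p), map_mul] at this
    · refine le_of_eq_of_le ?_ this
      congr 1
      · rw [← Matrix.det_submatrix_equiv_self (topE i₀)]
        have e : ((Matrix.of fun p => gen v d a (if hp : i₀ ∈ p then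
            (r, X ((topE i₀).symm ⟨p, hp⟩)) else Q ⟨p, hp⟩)).toSquareBlockProp
            fun p => i₀ ∈ p).submatrix (topE i₀) (topE i₀) =
            (Matrix.of fun i => f (X i)) * Matrix.diagonal (Function.update 1 i₀ 2) := by
          ext j l
          rw [Matrix.mul_diagonal]
          simp only [Matrix.toSquareBlockProp, Matrix.submatrix_apply, Matrix.toBlock_apply,
            Matrix.of_apply, dif_pos (topE i₀ j).2, Subtype.coe_eta, Equiv.symm_apply_apply]
          rw [topE_val]
          simp only [gen, Pi.smul_apply, smul_eq_mul, sq2_mk, ha, f]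
          by_cases hl : l = i₀
          · subst hl; simp; ring
          · simp [Function.update_of_ne hl, Pi.single_eq_of_ne hl]
        rw [e, Matrix.det_mul, Matrix.det_diagonal,
          Finset.prod_update_of_mem (Finset.mem_univ _), map_mul]
        simp only [hB₁, Pi.one_apply, prod_const_one, mul_one, v.two]
      · rw [hB₂]
        refine congrArg (fun A => v.N (Matrix.det A)) ?_
        funext p q
        simp [Matrix.toSquareBlockProp, dif_neg p.2, bot]
    · intro p hp q hq
      induction q using Sym2.ind with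
      | _ i j =>
        simp only [Sym2.mem_iff, not_or] at hq
        simp [dif_pos hp, gen, ha, Pi.single_eq_of_ne (Ne.symm hq.1),
          Pi.single_eq_of_ne (Ne.symm hq.2)]
  have hγ' : ∀ y, v.N (v.τ (-d r y) * γ y) ≤ 1 := by
    intro y
    rw [map_mul, v.hτ, neg_neg]
    calc _ ≤ Real.exp (d r y) * Real.exp (-d r y) := by gcongr; exact hγ y
      _ = 1 := by rw [← Real.exp_add]; simp
  have hB₁0 : 0 ≤ B₁ := v.N.nonneg _
  let f' : P → ι → K := fun y => v.τ (-d r y) • upd i₀ 0 γ a y
  have hf' : Bd v f' (κ * B₁) := by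
    intro Y
    have e : (Matrix.of fun i => f' (Y i)) = Matrix.of fun i =>
        Function.update ((Matrix.of fun i => f (Y i)) i) i₀
          (0 * (Matrix.of fun i => f (Y i)) i i₀ + v.τ (-d r (Y i)) * γ (Y i)) := by
      ext i j
      by_cases hj : j = i₀
      · subst hj; simp [f', upd]
      · simp [f', f, upd, Function.update_of_ne hj]
    rw [e, det_upd, zero_mul, zero_add]
    refine v.sum_le _ _ (mul_nonneg hκ0 hB₁0) fun i _ => ?_
    rw [map_mul]
    refine (mul_le_of_le_one_left (v.N.nonneg _) (hγ' _)).trans ?_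
    rw [← ha, e2]
    have e3 : ∀ (c : L → K) (M : Matrix ι ι K), (M.updateRow i (∑ j, c j • f (Z j))).det =
        ∑ j, c j * (M.updateRow i (f (Z j))).det := by
      intro c M
      have := (Matrix.detRowAlternating : (ι → K) [⋀^ι]→ₗ[K] K).map_update_sum
        (t := Finset.univ) (i := i) (g := fun j => c j • f (Z j)) (m := M)
      refine this.trans (Finset.sum_congr rfl fun j _ => ?_)
      exact Matrix.det_updateRow_smul M i (c j) (f (Z j))
    rw [e3]
    refine v.sum_le _ _ (mul_nonneg hκ0 hB₁0) fun j _ => ?_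
    rw [map_mul]
    refine mul_le_mul (hκ j) ?_ (v.N.nonneg _) hκ0
    · refine le_of_eq_of_le (congrArg (fun A => v.N (Matrix.det A)) ?_)
        (hX (Function.update Y i (Z j)))
      ext i' l
      by_cases hi : i' = i
      · subst hi; simp
      · simp [Matrix.updateRow_ne hi, Function.update_of_ne hi]
  have htop : Bd v (fun x (p : {p : Sym2 ι // i₀ ∈ p}) => gen v d (upd i₀ 0 γ a) x p) (κ * B₁) := by
    refine (hf'.reindex (topE i₀).symm).mono (mul_nonneg hκ0 hB₁0) _ (L := Fin 2)
      (fun x => ![v.τ (-d x.1 x.2) * γ x.1 / v.τ (-d r x.2),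
        v.τ (-d x.1 x.2) * γ x.2 / v.τ (-d r x.1)]) (fun x => ![x.2, x.1]) ?_ ?_
    · have key : ∀ x y z, z ≤ d r x + d r y → v.N (v.τ (-z) * γ x / v.τ (-d r y)) ≤ 1 := by
        intro x y z hz
        rw [map_div₀, map_mul, v.hτ, v.hτ, neg_neg, neg_neg, div_le_one (Real.exp_pos _)]
        calc _ ≤ Real.exp (d r x + d r y) * Real.exp (-d r x) := by gcongr; exact hγ x
          _ = _ := by rw [← Real.exp_add]; congr 1; ring
      rintro ⟨x, y⟩ l
      have := ht x r y
      rw [hs x r] at this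
      fin_cases l
      · exact key x y _ this
      · exact key y x _ (by linarith)
    · rintro ⟨x, y⟩
      funext p
      obtain ⟨l, rfl⟩ := (topE i₀).surjective p
      have h1 := v.τ_ne (-d r x)
      have h2 := v.τ_ne (-d r y)
      have hx : upd i₀ 0 γ a x i₀ = γ x := by simp [upd]
      have hy : upd i₀ 0 γ a y i₀ = γ y := by simp [upd]
      simp only [topE_val, gen, Fin.sum_univ_two, Pi.add_apply, Pi.smul_apply, smul_eq_mul, sq2_mk,
        Matrix.cons_val_zero, Matrix.cons_val_one, Equiv.symm_apply_apply, f', hx, hy]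
      field_simp
  have hbot : Bd v (fun x (p : {p : Sym2 ι // ¬ i₀ ∈ p}) => gen v d (upd i₀ 0 γ a) x p) B₂ := by
    have e : (fun x (p : {p : Sym2 ι // ¬ i₀ ∈ p}) => gen v d (upd i₀ 0 γ a) x p) = bot := by
      funext x p
      obtain ⟨p, hp⟩ := p
      induction p using Sym2.ind with
      | _ i j =>
        simp only [Sym2.mem_iff, not_or] at hp
        simp only [gen, upd, zero_mul, zero_add, Pi.smul_apply, sq2_mk, Function.update_of_ne (Ne.symm hp.1), Function.update_of_ne (Ne.symm hp.2), smul_eq_mul, bot]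
    rw [e]; exact hQ
  intro S
  refine (Bd.block (fun p => i₀ ∈ p) _ (mul_nonneg hκ0 hB₁0) (v.N.nonneg _) htop hbot S).trans ?_
  rw [mul_assoc]
  exact mul_le_mul_of_nonneg_left hB hκ0

theorem gen_step [Finite P] (hs : ∀ x y, d x y = d y x) (ht : ∀ x y z, d x z ≤ d x y + d y z)
    {a : P → ι → K} {B : ℝ} (h : Bd v (gen v d a) B) (r : P) (hr : d r r = 0) (i₀ : ι)
    (ha : a r = Pi.single i₀ 1) (γ : P → K) (hγ : ∀ x, v.N (γ x) ≤ Real.exp (-d r x))
    {L : Type} [Fintype L] (Z : L → P) (κ : ℝ) (cf : L → K)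
    (hκ : ∀ l, v.N (cf l) ≤ κ) (e2 : a r = ∑ l, cf l • v.τ (-d r (Z l)) • a (Z l))
    (σ : K) (hσ : v.N σ ≤ 1) (hσκ : v.N σ ≤ κ) :
    Bd v (gen v d (upd i₀ σ γ a)) (κ * B) := by
  have : Nonempty (P × P) := ⟨(r, r)⟩
  intro S
  let A : P → ι → Polynomial K := fun x =>
    Function.update (fun i => Polynomial.C (a x i)) i₀
      (Polynomial.X * Polynomial.C (a x i₀) + Polynomial.C (γ x))
  let M : Matrix (Sym2 ι) (Sym2 ι) (Polynomial K) := Matrix.of fun p q =>
    Polynomial.C (v.τ (-d (S p).1 (S p).2)) * sq2 (A (S p).1) (A (S p).2) q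
  have hA : ∀ s x i, (A x i).eval s = upd i₀ s γ a x i := by
    intro s x i
    by_cases hi : i = i₀
    · subst hi; simp [A, upd]; ring
    · simp [A, upd, Function.update_of_ne hi]
  have hM : ∀ s, M.det.eval s = (Matrix.of fun p => gen v d (upd i₀ s γ a) (S p)).det := by
    intro s
    rw [← Polynomial.coe_evalRingHom, RingHom.map_det]
    congr 1
    ext p q
    induction q using Sym2.ind with
    | _ i j => simp only [M, RingHom.mapMatrix_apply, Polynomial.coe_evalRingHom, map_apply, of_apply, sq2_mk, Polynomial.eval_mul, Polynomial.eval_C, Polynomial.eval_add, hA, gen, Pi.smul_apply, smul_eq_mul]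
  rw [← hM]
  refine NA.poly_interp (B := B) _ ?_ ?_ σ hσ (mul_le_mul_of_nonneg_right hσκ h.nonneg)
  · intro i hi
    rw [hM]
    exact gen_unit hs ht h r hr i₀ ha γ hγ _ (v.nat i (by omega)) S
  · rw [hM]
    exact gen_zero hs ht h r i₀ ha γ hγ Z κ ((v.N.nonneg _).trans hσκ) cf hκ e2 S

end Pool.Agent.MP_ea4e37_lc.H12

end

-- part MP_ea4e37_lc.H12.Core
section

/-! The extended cost bound on a finite ground set. -/

set_option autoImplicit false

namespace Pool.Agent.MP_ea4e37_lc.H12

open Finset Matrix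

variable {ι : Type} [Fintype ι] [LinearOrder ι] {K : Type} [Field K] {P : Type}
  {v : NA K} {d : P → P → ℝ}

theorem prod_exp_cl (hs : ∀ x y, d x y = d y x) (h0 : ∀ x, d x x = 0) (X : ι → P) :
    ∏ p : Sym2 ι, Real.exp (Sym2.lift ⟨fun i j => d (X i) (X j), fun _ _ => hs _ _⟩ p) =
      Real.exp ((∑ i, ∑ j, d (X i) (X j)) / 2) := by
  have h := prod_sym2_sq fun p : Sym2 ι =>
    Real.exp (Sym2.lift ⟨fun i j => d (X i) (X j), fun _ _ => hs _ _⟩ p)
  rw [← pow_left_inj₀ (Finset.prod_nonneg fun _ _ => (Real.exp_pos _).le) (Real.exp_pos _).le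
    two_ne_zero, h, ← Real.exp_nat_mul]
  simp only [Sym2.lift_mk, h0, Real.exp_zero, Finset.prod_const_one, mul_one, ← Real.exp_sum]
  congr 1; push_cast; ring

/-- The maximal minors of `a` represent the function `w`. -/
def Rep (v : NA K) (a : P → ι → K) (l : ℝ) (w : (ι → P) → ℝ) : Prop :=
  ∀ X, Function.Injective X → v.N (Matrix.of fun j => a (X j)).det = l * Real.exp (-w X)

/-- The initial work function. -/
structure Init (d : P → P → ℝ) (A : ι → P) (w : (ι → P) → ℝ) : Prop where
  le : ∀ X (π : Equiv.Perm ι), w X ≤ ∑ i, d (A i) (X (π i))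
  ex : ∀ X, ∃ π : Equiv.Perm ι, ∑ i, d (A i) (X (π i)) ≤ w X

/-- The work function recursion for a request at `r` with penalty `-log η`. -/
structure Rec (d : P → P → ℝ) (w w' : (ι → P) → ℝ) (r : P) (η : ℝ) : Prop where
  R1 : ∀ X i, w' X ≤ w (Function.update X i r) + d r (X i)
  R2 : ∀ X, η * Real.exp (-w X) ≤ Real.exp (-w' X)
  R3 : ∀ X, (∃ i, w (Function.update X i r) + d r (X i) ≤ w' X) ∨
    Real.exp (-w' X) ≤ η * Real.exp (-w X)
  mono : ∀ X, w X ≤ w' X

/-- The initial matrix. -/
def ini {ι : Type} (v : NA K) (d : P → P → ℝ) (A : ι → P) (c : ι → P → ℚ) : P → ι → K :=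
  fun x i => (c i x : K) * v.τ (d (A i) x)

theorem ini_le {ι : Type} (A : ι → P) (c : ι → P → ℚ) (x : P) (i : ι) :
    v.N (ini v d A c x i) ≤ Real.exp (-d (A i) x) := by
  rw [ini, map_mul, v.hτ]
  exact mul_le_of_le_one_left (Real.exp_pos _).le (v.rat_le _)

theorem ini_det_le {A : ι → P} {w : (ι → P) → ℝ} (h : Init d A w) (c : ι → P → ℚ) (X : ι → P) :
    v.N (Matrix.of fun j => ini v d A c (X j)).det ≤ Real.exp (-w X) := by
  rw [Matrix.det_apply']
  refine v.sum_le _ _ (Real.exp_pos _).le fun σ _ => ?_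
  rw [map_mul, v.sign, one_mul, map_prod]
  calc _ ≤ ∏ i, Real.exp (-d (A i) (X (σ i))) :=
        Finset.prod_le_prod (fun _ _ => v.N.nonneg _) fun i _ => ini_le _ _ _ _
    _ ≤ _ := by
        rw [← Real.exp_sum, Finset.sum_neg_distrib]
        exact Real.exp_le_exp.2 (neg_le_neg (h.le X σ))

theorem ini_ex {A : ι → P} {w : (ι → P) → ℝ} (h : Init d A w) (X : ι → P)
    (hX : Function.Injective X) :
    ∃ c, Real.exp (-w X) ≤ v.N (Matrix.of fun j => ini v d A c (X j)).det := by
  classical
  obtain ⟨π, hπ⟩ := h.ex X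
  refine ⟨fun i x => if x = X (π i) then 1 else 0, ?_⟩
  have e : (Matrix.of fun j => ini v d A (fun i x => if x = X (π i) then 1 else 0)
      (X j)).submatrix π id = Matrix.diagonal fun i => v.τ (d (A i) (X (π i))) := by
    ext j i
    by_cases hj : j = i
    · subst hj; simp [ini]
    · simp [ini, hX.eq_iff, hj]
  have e2 := congrArg (fun M => v.N (Matrix.det M)) e
  simp only [Matrix.det_permute, map_mul, v.sign, one_mul, Matrix.det_diagonal, map_prod,
    v.hτ, ← Real.exp_sum, Finset.sum_neg_distrib] at e2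
  rw [e2]
  exact Real.exp_le_exp.2 (neg_le_neg hπ)

theorem ini_gen [CharZero K] (A : ι → P) (X : ι → P) (m : ℝ) (hm : 0 < m) (c : ι → P → ℚ) (i₁ : ι)
    (h : m ≤ v.N (Matrix.of fun j => ini v d A c (X j)).det) :
    Gen fun b => m ≤ v.N (Matrix.of fun j => ini v d A (Function.update c i₁ b) (X j)).det := by
  have hdet : ∀ b : P → ℚ,
      (Matrix.of fun j => ini v d A (Function.update c i₁ b) (X j)).det = ∑ j, (b (X j) : K) *
        (v.τ (d (A i₁) (X j)) * ((Matrix.of fun j => ini v d A c (X j)).updateRow j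
          (Pi.single i₁ 1)).det) := by
    intro b
    have := det_upd (Matrix.of fun j => ini v d A c (X j)) i₁ 0
      fun j => (b (X j) : K) * v.τ (d (A i₁) (X j))
    simp only [zero_mul, zero_add, mul_assoc] at this
    rw [← this]
    congr 1
    ext j i
    by_cases h : i = i₁
    · subst h; simp [ini]
    · simp [ini, Function.update_of_ne h]
  simp only [hdet]
  exact v.generic X _ m hm ⟨c i₁, by rw [← hdet, Function.update_eq_self]; exact h⟩

theorem init_exists [CharZero K] [Finite P] {ι₂ : Type} [Fintype ι₂] [LinearOrder ι₂] (e : ι₂ ↪ ι)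
    {A : ι → P} {w : (ι → P) → ℝ} {w₂ : (ι₂ → P) → ℝ} (h : Init d A w) (h₂ : Init d (A ∘ e) w₂) :
    ∃ c, Rep v (ini v d A c) 1 w ∧ Rep v (ini v d (A ∘ e) (c ∘ e)) 1 w₂ := by
  classical
  obtain ⟨c, hc⟩ := Gen.multi (ι := ι) (J := P)
    (I := {X : ι → P // Function.Injective X} ⊕ {X : ι₂ → P // Function.Injective X})
    (Sum.elim (fun X c => Real.exp (-w X) ≤ v.N (Matrix.of fun j => ini v d A c (X.1 j)).det)
      fun X c => Real.exp (-w₂ X) ≤ v.N (Matrix.of fun j => ini v d (A ∘ e) (c ∘ e) (X.1 j)).det)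
    (by
      rintro (X | X)
      · exact ini_ex h X.1 X.2
      · obtain ⟨c, hc⟩ := ini_ex (v := v) h₂ X.1 X.2
        refine ⟨Function.extend e c 0, ?_⟩
        rwa [Sum.elim_inr, Function.extend_comp e.injective])
    (by
      rintro (X | X) c i hc
      · exact ini_gen A X.1 _ (Real.exp_pos _) c i hc
      · by_cases hi : ∃ j, e j = i
        · obtain ⟨j, rfl⟩ := hi
          simp only [Sum.elim_inr, Function.update_comp_eq_of_injective _ e.injective]
          exact ini_gen _ X.1 _ (Real.exp_pos _) _ j hc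
        · refine Gen.of_forall fun b => ?_
          rwa [Sum.elim_inr, Function.update_comp_eq_of_forall_ne _ _ fun j hj => hi ⟨j, hj⟩])
  exact ⟨c, fun X hX => by
      rw [one_mul]; exact le_antisymm (ini_det_le h _ _) (hc (Sum.inl ⟨X, hX⟩)),
    fun X hX => by rw [one_mul]; exact le_antisymm (ini_det_le h₂ _ _) (hc (Sum.inr ⟨X, hX⟩))⟩

theorem init_bd (hs : ∀ x y, d x y = d y x) (ht : ∀ x y z, d x z ≤ d x y + d y z)
    (h0 : ∀ x, d x x = 0) (A : ι → P) (a : P → ι → K)
    (ha : ∀ x i, v.N (a x i) ≤ Real.exp (-d (A i) x)) :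
    Bd v (gen v d a) (Real.exp ((∑ i, ∑ j, d (A i) (A j)) / 2)) := by
  intro S
  rw [← prod_exp_cl hs h0]
  refine v.det_le _ _ fun p q => ?_
  have key : ∀ x y i j, Real.exp (d x y) * v.N (a x i * a y j) ≤ Real.exp (d (A i) (A j)) := by
    intro x y i j
    rw [map_mul]
    calc _ ≤ Real.exp (d x y) * (Real.exp (-d (A i) x) * Real.exp (-d (A j) y)) := by
          gcongr
          · exact ha _ _
          · exact ha _ _
      _ ≤ _ := by
          rw [← Real.exp_add, ← Real.exp_add]
          refine Real.exp_le_exp.2 ?_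
          have h1 := ht x (A i) y
          have h2 := ht (A i) (A j) y
          rw [hs x (A i)] at h1
          linarith
  induction q using Sym2.ind with
  | _ i j =>
    simp only [gen, Matrix.of_apply, Pi.smul_apply, smul_eq_mul, sq2_mk, mul_add, Sym2.lift_mk]
    refine v.add_le ?_ ?_
    · rw [map_mul, v.hτ, neg_neg]; exact key _ _ _ _
    · rw [map_mul, v.hτ, neg_neg, hs (A i)]; exact key _ _ _ _

theorem final_bd (hs : ∀ x y, d x y = d y x) (h0 : ∀ x, d x x = 0) {a : P → ι → K} {B : ℝ}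
    (h : Bd v (gen v d a) B) (X : ι → P) (hX : (Matrix.of fun j => a (X j)).det ≠ 0) :
    v.N (Matrix.of fun j => a (X j)).det ^ (Fintype.card ι + 1) *
      Real.exp ((∑ i, ∑ j, d (X i) (X j)) / 2) ≤ B := by
  have hp : ∀ p : Sym2 ι, ∃ i j, s(i, j) = p := fun p => by
    induction p using Sym2.ind with
    | _ i j => exact ⟨i, j, rfl⟩
  choose fi fj hf using hp
  set M := Matrix.of fun j => a (X j) with hM
  have := h fun p => (X (fi p), X (fj p))
  have e : (fun p => gen v d a (X (fi p), X (fj p))) = fun p => S2 Mᵀ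
      ((Matrix.diagonal fun p => v.τ (-d (X (fi p)) (X (fj p))) *
        (if fi p = fj p then 2 else 1)) p) := by
    funext p
    have e1 : ∀ i, a (X i) = Mᵀ *ᵥ Pi.single i 1 := by
      intro i; funext l; simp [hM]
    simp only [gen]
    rw [e1 (fi p), e1 (fj p), ← S2_sq2, ← map_smul]
    congr 1
    funext q
    rw [Matrix.diagonal_apply]
    induction q using Sym2.ind with
    | _ i j =>
      have hq : p = s(i, j) ↔ (fi p = i ∧ fj p = j ∨ fi p = j ∧ fj p = i) := by
        rw [← Sym2.eq_iff, hf]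
      simp only [hq, Pi.smul_apply, smul_eq_mul, sq2_mk, Pi.single_apply]
      generalize fi p = x
      generalize fj p = y
      by_cases h1 : x = i
      · subst h1
        by_cases h2 : y = j
        · subst h2
          by_cases h3 : x = y
          · subst h3; simp only [↓ reduceIte, mul_one, and_self, or_self, mul_eq_mul_left_iff]; norm_num
          · simp [h3]
        · have h2' : ¬ j = y := fun h => h2 h.symm
          by_cases h3 : x = j
          · subst h3; simp [h2, h2']
          · have h3' : ¬ j = x := fun h => h3 h.symm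
            simp [h2, h2', h3, h3']
      · have h1' : ¬ i = x := fun h => h1 h.symm
        by_cases h3 : x = j
        · subst h3
          by_cases h4 : y = i
          · subst h4; simp [h1, h1']
          · have h4' : ¬ i = y := fun h => h4 h.symm
            simp [h1, h1', h4, h4']
        · have h3' : ¬ j = x := fun h => h3 h.symm
          simp [h1, h1', h3, h3']
  rw [e] at this
  erw [det_S2] at this
  rw [map_mul, δ_norm v _ (by rwa [Matrix.det_transpose]), Matrix.det_transpose] at this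
  refine le_of_eq_of_le ?_ this
  congr 1
  rw [← prod_exp_cl hs h0]
  change _ = v.N (Matrix.diagonal _).det
  rw [Matrix.det_diagonal, map_prod]
  refine Finset.prod_congr rfl fun p _ => ?_
  rw [map_mul, v.hτ, neg_neg]
  conv_lhs => rw [← hf p]
  split_ifs <;> simp [v.two]

theorem Rep.ne {a : P → ι → K} {l : ℝ} {w : (ι → P) → ℝ} (h : Rep v a l w) (hl : 0 < l)
    {X : ι → P} (hX : Function.Injective X) : (Matrix.of fun j => a (X j)).det ≠ 0 := by
  intro h0
  have := h X hX
  rw [h0, map_zero] at this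
  exact (mul_pos hl (Real.exp_pos _)).ne this

theorem Rep.le {a : P → ι → K} {l : ℝ} {w : (ι → P) → ℝ} (h : Rep v a l w) (hl : 0 < l)
    (X : ι → P) : v.N (Matrix.of fun j => a (X j)).det ≤ l * Real.exp (-w X) := by
  by_cases hX : Function.Injective X
  · exact (h X hX).le
  · obtain ⟨i, j, h1, h2⟩ := Function.not_injective_iff.1 hX
    rw [Matrix.det_zero_of_row_eq h2 (by funext l; simp [h1]), map_zero]
    positivity

theorem Rep.nrm {a : P → ι → K} {l : ℝ} {w : (ι → P) → ℝ} (h : Rep v a l w) (hl : 0 < l)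
    {r : P} {i₀ : ι} (hi₀ : a r i₀ ≠ 0) : ∃ l', 0 < l' ∧ Rep v (nrm a r i₀) l' w ∧
      ∀ B, Bd v (gen v d a) (l ^ (Fintype.card ι + 1) * B) →
        Bd v (gen v d (nrm a r i₀)) (l' ^ (Fintype.card ι + 1) * B) := by
  obtain ⟨g, hg, e⟩ := nrm_spec hi₀
  rw [e]
  refine ⟨v.N g.det * l, mul_pos (v.N.pos hg) hl, fun X hX => ?_, fun B hB => ?_⟩
  · have e : (Matrix.of fun j => g *ᵥ a (X j)) = (Matrix.of fun j => a (X j)) * gᵀ := by
      ext j i; simp only [of_apply, mulVec, dotProduct, Matrix.mul_apply, transpose_apply, mul_comm]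
    rw [e, Matrix.det_mul, Matrix.det_transpose, map_mul, h X hX]; ring
  · have := gen_mul hB g hg
    rwa [← mul_assoc, ← mul_pow] at this

omit [Fintype ι] in
theorem row_eq {b : P → ι → K} {r : P} {i₀ : ι} (hbr : b r = Pi.single i₀ 1) (X : ι → P) (i : ι) :
    (Matrix.of fun j => b (X j)).updateRow i (Pi.single i₀ 1) =
      Matrix.of fun j => b (Function.update X i r j) := by
  ext j l
  by_cases hj : j = i
  · subst hj; simp [hbr]
  · simp [Matrix.updateRow_ne hj, Function.update_of_ne hj]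

theorem Rep.opt {b : P → ι → K} {l : ℝ} {w w' : (ι → P) → ℝ} (hb : Rep v b l w) (hl : 0 < l)
    {r : P} {η : ℝ} (R : Rec d w w' r η) {i₀ : ι} (hbr : b r = Pi.single i₀ 1) (X : ι → P)
    (i : ι) : v.N ((Matrix.of fun j => b (X j)).updateRow i (Pi.single i₀ 1)).det *
      Real.exp (-d r (X i)) ≤ l * Real.exp (-w' X) := by
  rw [row_eq hbr]
  calc _ ≤ l * Real.exp (-w (Function.update X i r)) * Real.exp (-d r (X i)) := by
        gcongr; exact hb.le hl _
    _ ≤ _ := by
        rw [mul_assoc, ← Real.exp_add]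
        gcongr; linarith [R.R1 X i]

theorem coef_le (c : ℚ) (x : K) : v.N ((c : K) * x) ≤ v.N x := by
  rw [map_mul]; exact mul_le_of_le_one_left (v.N.nonneg _) (v.rat_le _)

theorem Rep.step [CharZero K] [Finite P] (h0 : ∀ x, d x x = 0) {b : P → ι → K} {l : ℝ}
    {w w' : (ι → P) → ℝ} (hb : Rep v b l w) (hl : 0 < l) {r : P} {η : ℝ} (R : Rec d w w' r η)
    {i₀ : ι} (hbr : b r = Pi.single i₀ 1) (s : K) (hsη : v.N s = η) :
    Gen fun c : Option P → ℚ => Rep v (upd i₀ ((c none : K) * s)
      (fun x => (c (some x) : K) * v.τ (d r x)) b) l w' := by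
  classical
  let u : (ι → P) → Option ι → K := fun X o => o.elim (s * (Matrix.of fun j => b (X j)).det)
    fun i => v.τ (d r (X i)) * ((Matrix.of fun j => b (X j)).updateRow i (Pi.single i₀ 1)).det
  have hg : Gen fun c : Option P → ℚ => ∀ X : {X : ι → P // Function.Injective X},
      l * Real.exp (-w' X) ≤ v.N (∑ j : Option ι, (c (j.map X.1) : K) * u X j) := by
    refine Gen.all ?_
    rintro ⟨X, hX⟩
    refine v.generic (fun o : Option ι => o.map X) (u X) _ (mul_pos hl (Real.exp_pos _)) ?_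
    have one : ∀ o : Option ι, l * Real.exp (-w' X) ≤ v.N (u X o) → ∃ c : Option P → ℚ,
        l * Real.exp (-w' X) ≤ v.N (∑ j : Option ι, (c (j.map X) : K) * u X j) := by
      intro o ho
      refine ⟨fun y => if y = o.map X then 1 else 0, ho.trans_eq ?_⟩
      congr 1
      rw [Finset.sum_eq_single o]
      · simp
      · intro j _ hj
        have : ¬ j.map X = o.map X := fun h => hj (Option.map_injective hX h)
        simp [this]
      · simp only [mem_univ, not_true_eq_false, ↓ reduceIte, Rat.cast_one, one_mul, IsEmpty.forall_iff]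
    by_cases hrX : ∃ j, X j = r
    · obtain ⟨j, hj⟩ := hrX
      refine one (some j) ?_
      simp only [u, Option.elim_some]
      rw [row_eq hbr, map_mul, v.hτ, hj, h0, ← hj, Function.update_eq_self, hb X hX]
      simp only [neg_zero, Real.exp_zero, one_mul]
      gcongr; exact R.mono X
    rcases R.R3 X with ⟨i, hi⟩ | hi
    · refine one (some i) ?_
      simp only [u, Option.elim_some]
      have hinj : Function.Injective (Function.update X i r) := by
        intro x y hxy
        by_cases hx : x = i <;> by_cases hy : y = i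
        · rw [hx, hy]
        · rw [hx, Function.update_self, Function.update_of_ne hy] at hxy
          exact absurd ⟨y, hxy.symm⟩ hrX
        · rw [hy, Function.update_self, Function.update_of_ne hx] at hxy
          exact absurd ⟨x, hxy⟩ hrX
        · rw [Function.update_of_ne hx, Function.update_of_ne hy] at hxy
          exact hX hxy
      rw [row_eq hbr, map_mul, v.hτ, hb _ hinj, mul_left_comm, ← Real.exp_add]
      gcongr; linarith
    · refine one none ?_
      simp only [u, Option.elim_none]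
      rw [map_mul, hsη, hb X hX, mul_left_comm]
      gcongr
  refine hg.mono fun c hc X hX => ?_
  have e := det_upd (Matrix.of fun j => b (X j)) i₀ ((c none : K) * s)
    fun j => (c (some (X j)) : K) * v.τ (d r (X j))
  change (Matrix.of fun j => upd i₀ ((c none : K) * s)
    (fun x => (c (some x) : K) * v.τ (d r x)) b (X j)).det = _ at e
  rw [e]
  refine le_antisymm (v.add_le ?_ (v.sum_le _ _ (by positivity) fun i _ => ?_)) ?_
  · rw [mul_assoc]
    refine (coef_le _ _).trans ?_
    rw [map_mul, hb X hX, hsη, mul_left_comm]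
    gcongr; exact R.R2 X
  · rw [mul_assoc]
    refine (coef_le _ _).trans ?_
    rw [map_mul, v.hτ, mul_comm]
    exact hb.opt hl R hbr X i
  · refine (hc ⟨X, hX⟩).trans_eq ?_
    congr 1
    simp only [u, Fintype.sum_option, Option.map_none, Option.elim_none, Option.map_some, Option.elim_some, mul_assoc]

theorem step_exists [CharZero K] [Finite P] {ι₂ : Type} [Fintype ι₂] [LinearOrder ι₂] (e : ι₂ ↪ ι)
    (hs : ∀ x y, d x y = d y x) (ht : ∀ x y z, d x z ≤ d x y + d y z) (h0 : ∀ x, d x x = 0)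
    {w w' : (ι → P) → ℝ} {w₂ w₂' : (ι₂ → P) → ℝ} {r : P} {η : ℝ} (hη0 : 0 ≤ η) (hη1 : η ≤ 1)
    (hr : ∃ X : ι₂ → P, Function.Injective X ∧ ∃ i, X i = r)
    (R : Rec d w w' r η) (R₂ : Rec d w₂ w₂' r η) (Z : ι → P) (hZ : Function.Injective Z)
    {a : P → ι → K} {l l₂ B : ℝ} (hl : 0 < l) (hl₂ : 0 < l₂) (ha : Rep v a l w)
    (ha₂ : Rep v (fun x => a x ∘ e) l₂ w₂)
    (hB : Bd v (gen v d fun x => a x ∘ e) (l₂ ^ (Fintype.card ι₂ + 1) * B)) :
    ∃ (a' : P → ι → K) (l' l₂' : ℝ), 0 < l' ∧ 0 < l₂' ∧ Rep v a' l' w' ∧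
      Rep v (fun x => a' x ∘ e) l₂' w₂' ∧ Bd v (gen v d fun x => a' x ∘ e)
        (l₂' ^ (Fintype.card ι₂ + 1) * (B * Real.exp (-(w' Z - w Z)))) := by
  obtain ⟨j₀, hj₀⟩ : ∃ j₀, a r (e j₀) ≠ 0 := by
    by_contra! hc
    obtain ⟨X, hX, i, hi⟩ := hr
    exact ha₂.ne hl₂ hX (Matrix.det_eq_zero_of_row_eq_zero i (by simpa only [of_apply, hi, Function.comp_apply] using hc))
  obtain ⟨l', hl', hb, -⟩ := ha.nrm (d := d) hl hj₀
  obtain ⟨l₂', hl₂', hb₂, hBb⟩ := ha₂.nrm (d := d) hl₂ (r := r) (i₀ := j₀) hj₀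
  have hbr := nrm_self hj₀
  have hbr₂ := nrm_self (a := fun x => a x ∘ e) (r := r) (i₀ := j₀) hj₀
  have e1 : ∀ x, nrm (fun x => a x ∘ e) r j₀ x = nrm a r (e j₀) x ∘ e := by
    intro x; funext j; simp [nrm, Pi.single_apply]
  obtain ⟨s, hsη⟩ : ∃ s : K, v.N s = η := by
    rcases hη0.eq_or_lt with h | h
    · exact ⟨0, by simp [← h]⟩
    · exact ⟨v.τ (-Real.log η), by rw [v.hτ, neg_neg, Real.exp_log h]⟩
  obtain ⟨c, hc, hc₂⟩ := ((hb.step h0 hl' R hbr s hsη).and (hb₂.step h0 hl₂' R₂ hbr₂ s hsη)).exists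
  have e2 : ∀ (σ : K) (γ : P → K), (fun x => upd (e j₀) σ γ (nrm a r (e j₀)) x ∘ e) =
      upd j₀ σ γ (nrm (fun x => a x ∘ e) r j₀) := by
    intro σ γ
    funext x
    simp only [upd, e1, Function.update_comp_eq_of_injective _ e.injective, Function.comp_apply]
  refine ⟨_, l', l₂', hl', hl₂', hc, by rw [e2]; exact hc₂, ?_⟩
  rw [e2]
  have e3 : Real.exp (-(w' Z - w Z)) * Real.exp (-w Z) = Real.exp (-w' Z) := by
    rw [← Real.exp_add]; congr 1; ring
  obtain ⟨cf, h1, h2⟩ := exists_cf (v := v) (d := d) r _ hbr Z (hb.ne hl' hZ)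
    (Real.exp (-(w' Z - w Z))) fun i => by
      rw [hb Z hZ, mul_left_comm, e3]; exact hb.opt hl' R hbr Z i
  have hσ : v.N ((c none : K) * s) ≤ η := (coef_le _ _).trans hsη.le
  have := gen_step hs ht (hBb B hB) r (h0 r) j₀ hbr₂ (fun x => (c (some x) : K) * v.τ (d r x))
    (fun x => (coef_le _ _).trans (v.hτ _).le) Z _ cf h1
    (by
      funext j
      have := congrFun h2 (e j)
      simpa only [e1, Function.comp_apply, Finset.sum_apply, Pi.smul_apply, smul_eq_mul] using this) _ (hσ.trans hη1)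
    (hσ.trans (le_of_mul_le_mul_right (by rw [e3]; exact R.R2 Z) (Real.exp_pos (-w Z))))
  convert this using 1
  ring

theorem core [Finite P] {ι₂ : Type} [Fintype ι₂] [LinearOrder ι₂] (e : ι₂ ↪ ι)
    (hs : ∀ x y, d x y = d y x) (ht : ∀ x y z, d x z ≤ d x y + d y z) (h0 : ∀ x, d x x = 0)
    (A : ι → P) (n : ℕ) (w : ℕ → (ι → P) → ℝ) (w₂ : ℕ → (ι₂ → P) → ℝ) (r : ℕ → P) (η : ℕ → ℝ)
    (hη0 : ∀ t, 0 ≤ η t) (hη1 : ∀ t, η t ≤ 1)
    (hr : ∀ x, ∃ X : ι₂ → P, Function.Injective X ∧ ∃ i, X i = x)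
    (I : Init d A (w 0)) (I₂ : Init d (A ∘ e) (w₂ 0))
    (R : ∀ t < n, Rec d (w t) (w (t + 1)) (r t) (η t))
    (R₂ : ∀ t < n, Rec d (w₂ t) (w₂ (t + 1)) (r t) (η t)) (Z : ℕ → ι → P)
    (hZ : ∀ t < n, Function.Injective (Z t)) (X : ι₂ → P) (hX : Function.Injective X) :
    ∑ t ∈ range n, (w (t + 1) (Z t) - w t (Z t)) ≤ (Fintype.card ι₂ + 1) * w₂ n X -
      (∑ i, ∑ j, d (X i) (X j)) / 2 + (∑ i, ∑ j, d (A (e i)) (A (e j))) / 2 := by
  have : CharZero (HahnSeries ℝ ℚ) := charZero_of_inj_zero fun n h => by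
    by_contra hn
    have := hahn.nat n hn
    rw [h, map_zero] at this
    exact zero_ne_one this
  have inv : ∀ m ≤ n, ∃ (a : P → ι → HahnSeries ℝ ℚ) (l l₂ : ℝ), 0 < l ∧ 0 < l₂ ∧
      Rep hahn a l (w m) ∧ Rep hahn (fun x => a x ∘ e) l₂ (w₂ m) ∧
      Bd hahn (gen hahn d fun x => a x ∘ e) (l₂ ^ (Fintype.card ι₂ + 1) * Real.exp
        ((∑ i, ∑ j, d (A (e i)) (A (e j))) / 2 -
          ∑ t ∈ range m, (w (t + 1) (Z t) - w t (Z t)))) := by
    intro m
    induction m with
    | zero =>
      intro _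
      obtain ⟨c, h1, h2⟩ := init_exists (v := hahn) e I I₂
      refine ⟨_, 1, 1, one_pos, one_pos, h1, h2, ?_⟩
      simp only [one_pow, one_mul, Finset.range_zero, Finset.sum_empty, sub_zero]
      exact init_bd hs ht h0 (A ∘ e) _ (ini_le (v := hahn) (A ∘ e) (c ∘ e))
    | succ m ih =>
      intro hm
      obtain ⟨a, l, l₂, h1, h2, h3, h4, h5⟩ := ih (by omega)
      obtain ⟨a', l', l₂', h6, h7, h8, h9, h10⟩ := step_exists e hs ht h0 (hη0 m) (hη1 m) (hr _)
        (R m hm) (R₂ m hm) (Z m) (hZ m hm) h1 h2 h3 h4 h5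
      refine ⟨a', l', l₂', h6, h7, h8, h9, ?_⟩
      rw [← Real.exp_add] at h10
      rw [Finset.sum_range_succ]
      convert h10 using 3
      ring
  obtain ⟨a, l, l₂, -, h1, -, h2, h3⟩ := inv n le_rfl
  have h4 := final_bd hs h0 h3 X (h2.ne h1 hX)
  rw [h2 X hX, mul_pow, mul_assoc, mul_le_mul_iff_right₀ (pow_pos h1 _), ← Real.exp_nat_mul,
    ← Real.exp_add, Real.exp_le_exp] at h4
  push_cast at h4
  linarith

end Pool.Agent.MP_ea4e37_lc.H12

end
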