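import Pool.Agent.MP_ea4e37_lc.Mg.H12_Work

/-! Lower bound `2k - 1` for the strict competitive ratio on a star. -/

set_option autoImplicit false

namespace Pool.Agent.MP_ea4e37_lc.H12

open Finset

/-- The star with `k` leaves. -/
abbrev Star (k : ℕ) : Type := Option (Fin k)

variable {k : ℕ}

/-- Indicator of a leaf. -/
def ind (x : Star k) (l : Fin k) : ℝ := if x = some l then 1 else 0

theorem one_le_sd {x y : Star k} (h : x ≠ y) : 1 ≤ ∑ l, |ind x l - ind y l| := by
  obtain ⟨l, hl⟩ : ∃ l, |ind x l - ind y l| = 1 := by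
    cases x with
    | none =>
      cases y with
      | none => exact absurd rfl h
      | some j => exact ⟨j, by simp [ind]⟩
    | some i => exact ⟨i, by simp [ind, h.symm]⟩
  rw [← hl]
  exact Finset.single_le_sum (f := fun l => |ind x l - ind y l|) (fun _ _ => abs_nonneg _)
    (mem_univ l)

noncomputable instance (k : ℕ) : MetricSpace (Star k) where
  dist x y := ∑ l, |ind x l - ind y l|
  dist_self x := by simp
  dist_comm x y := Finset.sum_congr rfl fun _ _ => abs_sub_comm _ _
  dist_triangle x y z := by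
    rw [← Finset.sum_add_distrib]
    exact Finset.sum_le_sum fun _ _ => abs_sub_le _ _ _
  eq_of_dist_eq_zero := by
    intro x y h
    by_contra hne
    have := one_le_sd hne
    change ∑ l, |ind x l - ind y l| = 0 at h
    linarith

theorem star_dist (x y : Star k) : dist x y = ∑ l, |ind x l - ind y l| := rfl

/-- Number of servers on a leaf. -/
def cnt (Y : Fin k → Star k) (l : Fin k) : ℝ := ∑ i, ind (Y i) l

theorem cnt_zero {Y : Fin k → Star k} {l : Fin k} (h : (some l : Star k) ∉ Set.range Y) :
    cnt Y l = 0 :=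
  Finset.sum_eq_zero fun i _ => if_neg fun hi => h ⟨i, hi⟩

theorem one_le_cnt {Y : Fin k → Star k} {l : Fin k} (h : (some l : Star k) ∈ Set.range Y) :
    1 ≤ cnt Y l := by
  obtain ⟨i, hi⟩ := h
  have : ind (Y i) l = 1 := if_pos hi
  rw [← this]
  exact Finset.single_le_sum (f := fun i => ind (Y i) l)
    (fun _ _ => by unfold ind; split_ifs <;> norm_num) (mem_univ i)

theorem tv_le_mov (C : ℕ → Fin k → Star k) (n : ℕ) :
    ∑ l, ∑ t ∈ range n, dist (cnt (C t) l) (cnt (C (t + 1)) l) ≤ mov C n := by
  rw [Finset.sum_comm, mov]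
  refine Finset.sum_le_sum fun t _ => ?_
  simp only [star_dist]
  rw [Finset.sum_comm]
  refine Finset.sum_le_sum fun l _ => ?_
  rw [Real.dist_eq, cnt, cnt, ← Finset.sum_sub_distrib]
  exact Finset.abs_sum_le_sum_abs _ _

theorem step_cost {M : Type} [MetricSpace M] (h1 : ∀ x y : M, x ≠ y → 1 ≤ dist x y)
    {Y Y' : Fin k → M} {x : M} (h : x ∉ Set.range Y) (h' : x ∈ Set.range Y') :
    1 ≤ ∑ i, dist (Y i) (Y' i) := by
  obtain ⟨i, rfl⟩ := h'
  exact (h1 _ _ fun e => h ⟨i, e⟩).trans (Finset.single_le_sum (f := fun i => dist (Y i) (Y' i))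
    (fun _ _ => dist_nonneg) (mem_univ i))

theorem star_opt (hk : 0 < k) (r : ℕ → Star k) (n : ℕ) (hn : 0 < n) (h0 : r 0 = none) (l : Fin k)
    (hl : ∀ t < n, r t ≠ some l) : opt (Input.plain r) (fun i => (some i : Star k)) n = 1 := by
  apply le_antisymm
  · let B : Fin k → Star k := Function.update (fun i => (some i : Star k)) l none
    have hC : Feasible (Input.plain r) (fun i => (some i : Star k))
        (fun t => Nat.casesOn t (fun i => (some i : Star k)) fun _ => B) n := by
      refine ⟨rfl, fun t ht _ => ?_⟩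
      change r t ∈ Set.range B
      have := hl t ht
      cases h : r t with
      | none => exact ⟨l, by simp [B]⟩
      | some j =>
        have hj : j ≠ l := fun e => this (by rw [h, e])
        exact ⟨j, by simp [B, Function.update_of_ne hj]⟩
    refine (opt_le hC).trans_eq ?_
    obtain ⟨m, rfl⟩ : ∃ m, n = m + 1 := ⟨n - 1, by omega⟩
    have := sum_update_left (fun i => (some i : Star k)) l none
    simp only [dist_comm (Function.update _ _ _ _)] at this
    simp only [mov, pen, Input.plain, ite_self, Finset.sum_const_zero, add_zero,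
      Finset.sum_range_succ', dist_self, zero_add, Nat.rec_zero, B, this]
    simp [star_dist, ind, apply_ite abs]
  · refine le_opt hk fun C hC => ?_
    have h1 : 1 ≤ ∑ i, dist (C 0 i) (C (0 + 1) i) :=
      step_cost (fun _ _ => one_le_sd) (x := r 0) (by rw [hC.1, h0]; simp) (hC.2 0 hn trivial)
    have h2 : ∑ i, dist (C 0 i) (C (0 + 1) i) ≤ mov C n :=
      Finset.single_le_sum (f := fun t => ∑ i, dist (C t i) (C (t + 1) i))
        (fun _ _ => Finset.sum_nonneg fun _ _ => dist_nonneg) (Finset.mem_range.2 hn)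
    linarith [pen_nonneg (ρ := Input.plain r) C n]

theorem star_lower (hk : 0 < k) (alg : List (Star k) → Fin k → Star k)
    (h0 : alg [] = fun i => some i) (hs : ∀ l x, x ∈ Set.range (alg (l ++ [x]))) :
    ∃ (r : ℕ → Star k) (n : ℕ), opt (Input.plain r) (fun i => (some i : Star k)) n = 1 ∧
      2 * (k : ℝ) - 1 ≤ mov (fun t => alg ((List.range t).map r)) n := by
  classical
  let good : List (Star k) → Star k → Prop := fun l x =>
    x ∉ Set.range (alg l) ∧ ∃ j : Fin k, (some j : Star k) ∉ l ∧ (some j : Star k) ≠ x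
  let next : List (Star k) → Star k := fun l =>
    if l = [] then none else if h : ∃ x, good l x then h.choose else none
  let L : ℕ → List (Star k) := fun t => Nat.rec [] (fun _ l => l ++ [next l]) t
  let r : ℕ → Star k := fun t => next (L t)
  have hL : ∀ t, L (t + 1) = L t ++ [r t] := fun _ => rfl
  have hLr : ∀ t, (List.range t).map r = L t := by
    intro t
    induction t with
    | zero => rfl
    | succ t ih => rw [List.range_succ, List.map_append, ih, hL]; rfl
  have hr0 : r 0 = none := if_pos rfl
  have hg0 : good (L 0) (r 0) := by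
    rw [hr0]
    exact ⟨by change _ ∉ Set.range (alg []); rw [h0]; simp, ⟨0, hk⟩, by simp [L], by simp⟩
  have hmem : ∀ n x, x ∈ L n ↔ ∃ t < n, r t = x := by
    intro n x; rw [← hLr]; simp
  have hfree : ∀ m, good (L m) (r m) → ∃ j : Fin k, (some j : Star k) ∉ L (m + 1) := by
    rintro m ⟨-, j, h1, h2⟩
    exact ⟨j, by rw [hL]; simp [h1, h2]⟩
  rcases em (∀ t < 2 * k - 1, good (L t) (r t)) with H | H
  · obtain ⟨j, hj⟩ := hfree (2 * k - 2) (H _ (by omega))
    refine ⟨r, 2 * k - 1, star_opt hk r _ (by omega) hr0 j fun t ht e =>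
      hj ((hmem (2 * k - 2 + 1) _).2 ⟨t, by omega, e⟩), ?_⟩
    simp only [hLr]
    have : ∑ t ∈ range (2 * k - 1), (1 : ℝ) ≤ mov (fun t => alg (L t)) (2 * k - 1) :=
      Finset.sum_le_sum fun t ht => step_cost (fun _ _ => one_le_sd)
        (H t (Finset.mem_range.1 ht)).1 (hs (L t) (r t))
    rw [Finset.sum_const, Finset.card_range, nsmul_eq_mul, mul_one,
      Nat.cast_sub (by omega)] at this
    exact_mod_cast this
  · have H' : ∃ t, ¬ good (L t) (r t) := by
      push Not at H
      obtain ⟨t, -, ht⟩ := H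
      exact ⟨t, ht⟩
    obtain ⟨n, hbad, hgood⟩ : ∃ n, ¬ good (L n) (r n) ∧ ∀ t < n, good (L t) (r t) := by
      have : DecidablePred fun n => ¬ good (L n) (r n) := Classical.decPred _
      exact ⟨Nat.find H', Nat.find_spec H', fun t ht => not_not.1 (Nat.find_min H' ht)⟩
    have hn0 : 0 < n := Nat.pos_of_ne_zero fun h => hbad (by rw [h]; exact hg0)
    obtain ⟨m, hm⟩ : ∃ m, n = m + 1 := ⟨n - 1, by omega⟩
    obtain ⟨j, hj⟩ := hfree m (hgood m (by omega))
    rw [← hm] at hj
    have hno : ∀ x, ¬ good (L n) x := by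
      intro x hx
      have hne : L n ≠ [] := by rw [hm, hL]; simp
      have hex : ∃ x, good (L n) x := ⟨x, hx⟩
      apply hbad
      simp only [r, next, if_neg hne, dif_pos hex]
      exact hex.choose_spec
    have hcov : ∀ x : Star k, x ≠ some j → x ∈ Set.range (alg (L n)) := fun x hx => by
      by_contra h; exact hno x ⟨h, j, hj, hx.symm⟩
    have hunc : (some j : Star k) ∉ Set.range (alg (L n)) := by
      intro h
      have hsurj : Function.Surjective (alg (L n) : Fin k → Option (Fin k)) := fun x => by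
        by_cases hx : x = some j
        · rw [hx]; exact h
        · exact hcov x hx
      have := Fintype.card_le_of_surjective _ hsurj
      simp at this
    refine ⟨r, n, star_opt hk r _ hn0 hr0 j fun t ht e => hj ((hmem _ _).2 ⟨t, ht, e⟩), ?_⟩
    simp only [hLr]
    refine le_trans ?_ (tv_le_mov _ _)
    have hc0 : ∀ l, 1 ≤ cnt (alg (L 0)) l := fun l =>
      one_le_cnt (by change _ ∈ Set.range (alg []); rw [h0]; exact ⟨l, rfl⟩)
    have key : ∀ l, (2 : ℝ) - (if l = j then 1 else 0) ≤
        ∑ t ∈ range n, dist (cnt (alg (L t)) l) (cnt (alg (L (t + 1))) l) := by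
      intro l
      split_ifs with hl
      · subst hl
        have := dist_le_range_sum_dist (fun t => cnt (alg (L t)) l) n
        rw [Real.dist_eq, cnt_zero hunc, sub_zero] at this
        linarith [le_abs_self (cnt (alg (L 0)) l), hc0 l]
      · have hl' : (some l : Star k) ≠ some j := fun e => hl (Option.some.inj e)
        have hin : (some l : Star k) ∈ L n := by
          by_contra h; exact hno _ ⟨hunc, l, h, hl'⟩
        obtain ⟨s, hs1, hs2⟩ := (hmem _ _).1 hin
        have h1 := dist_le_range_sum_dist (fun t => cnt (alg (L t)) l) s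
        have h2 := dist_le_Ico_sum_dist (fun t => cnt (alg (L t)) l) hs1.le
        have h3 : cnt (alg (L s)) l = 0 := cnt_zero (hs2 ▸ (hgood s hs1).1)
        rw [Real.dist_eq, h3, sub_zero] at h1
        rw [Real.dist_eq, h3, zero_sub, abs_neg] at h2
        rw [← Finset.sum_range_add_sum_Ico _ hs1.le]
        linarith [le_abs_self (cnt (alg (L 0)) l), hc0 l, le_abs_self (cnt (alg (L n)) l),
          one_le_cnt (hcov _ hl')]
    refine le_trans (le_of_eq ?_) (Finset.sum_le_sum fun l _ => key l)
    simp [mul_comm]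

end Pool.Agent.MP_ea4e37_lc.H12
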