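import Pool.Agent.MP_ea4e37_lc.Mg.H12_Core
import Pool.Agent.MP_ea4e37_lc.H12.Defs

/-! Work functions with rejection and the analysis of the algorithm. -/

set_option autoImplicit false

namespace Pool.Agent.MP_ea4e37_lc.H12

open Finset

variable {M : Type} [MetricSpace M] {k : ℕ} {ρ : Input M} {A : Fin k → M}

theorem mov_nonneg (C : ℕ → Fin k → M) (n : ℕ) : 0 ≤ mov C n :=
  Finset.sum_nonneg fun _ _ => Finset.sum_nonneg fun _ _ => dist_nonneg

omit [MetricSpace M] in
theorem pen_nonneg (C : ℕ → Fin k → M) (n : ℕ) : 0 ≤ pen ρ C n :=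
  Finset.sum_nonneg fun t _ => by
    split_ifs
    · exact le_rfl
    · exact ρ.p_nonneg t

omit [MetricSpace M] in
theorem exists_feasible (hk : 0 < k) (n : ℕ) : ∃ C, Feasible ρ A C n :=
  ⟨fun t => Nat.casesOn t A fun s _ => ρ.r s, rfl, fun _ _ _ => ⟨⟨0, hk⟩, rfl⟩⟩

theorem opt_le {C : ℕ → Fin k → M} {n : ℕ} (h : Feasible ρ A C n) :
    opt ρ A n ≤ mov C n + pen ρ C n :=
  csInf_le ⟨0, by
    rintro _ ⟨C, -, rfl⟩
    exact add_nonneg (mov_nonneg C n) (pen_nonneg C n)⟩ ⟨C, h, rfl⟩

theorem le_opt (hk : 0 < k) {n : ℕ} {y : ℝ}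
    (h : ∀ C, Feasible ρ A C n → y ≤ mov C n + pen ρ C n) : y ≤ opt ρ A n := by
  obtain ⟨C, hC⟩ := exists_feasible (ρ := ρ) (A := A) hk n
  refine le_csInf ⟨_, C, hC, rfl⟩ ?_
  rintro _ ⟨C, hC, rfl⟩
  exact h C hC

theorem wf_le {C : ℕ → Fin k → M} {n : ℕ} (h : Feasible ρ A C n) (X : Fin k → M)
    (π : Equiv.Perm (Fin k)) :
    wf ρ A n X ≤ mov C n + pen ρ C n + ∑ i, dist (C n i) (X (π i)) :=
  csInf_le ⟨0, by
    rintro _ ⟨C, π, -, rfl⟩
    exact add_nonneg (add_nonneg (mov_nonneg C n) (pen_nonneg C n))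
      (Finset.sum_nonneg fun _ _ => dist_nonneg)⟩ ⟨C, π, h, rfl⟩

theorem le_wf (hk : 0 < k) {n : ℕ} {X : Fin k → M} {y : ℝ}
    (h : ∀ C (π : Equiv.Perm (Fin k)), Feasible ρ A C n →
      y ≤ mov C n + pen ρ C n + ∑ i, dist (C n i) (X (π i))) : y ≤ wf ρ A n X := by
  obtain ⟨C, hC⟩ := exists_feasible (ρ := ρ) (A := A) hk n
  refine le_csInf ⟨_, C, 1, hC, rfl⟩ ?_
  rintro _ ⟨C, π, hC, rfl⟩
  exact h C π hC

theorem wf_lip (hk : 0 < k) (n : ℕ) (X Y : Fin k → M) :
    wf ρ A n X ≤ wf ρ A n Y + ∑ i, dist (Y i) (X i) := by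
  rw [← sub_le_iff_le_add]
  refine le_wf hk fun C π hC => ?_
  have h1 := wf_le hC X π
  have h2 : ∑ i, dist (C n i) (X (π i)) ≤
      ∑ i, dist (C n i) (Y (π i)) + ∑ i, dist (Y (π i)) (X (π i)) := by
    rw [← Finset.sum_add_distrib]
    exact Finset.sum_le_sum fun i _ => dist_triangle _ _ _
  rw [Equiv.sum_comp π fun i => dist (Y i) (X i)] at h2
  linarith only [h1, h2]

theorem sum_update_left (X : Fin k → M) (i : Fin k) (r : M) :
    ∑ j, dist (Function.update X i r j) (X j) = dist r (X i) := by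
  rw [Finset.sum_eq_single i]
  · simp
  · intro j _ hj; simp [Function.update_of_ne hj]
  · simp only [mem_univ, not_true_eq_false, Function.update_self, dist_eq_zero, IsEmpty.forall_iff]

open Classical in
theorem wf_succ_le (hk : 0 < k) (n : ℕ) (X Y : Fin k → M)
    (hY : ρ.must n → ρ.r n ∈ Set.range Y) :
    wf ρ A (n + 1) X ≤ wf ρ A n Y + (if ρ.r n ∈ Set.range Y then 0 else ρ.p n) +
      ∑ i, dist (Y i) (X i) := by
  rw [add_assoc, ← sub_le_iff_le_add]
  refine le_wf hk fun C π hC => ?_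
  have hr : Set.range (Y ∘ π) = Set.range Y := π.surjective.range_comp Y
  have e1 : ∀ t ≤ n, Function.update C (n + 1) (Y ∘ π) t = C t := fun t ht =>
    Function.update_of_ne (by omega) _ _
  have hC' : Feasible ρ A (Function.update C (n + 1) (Y ∘ π)) (n + 1) := by
    refine ⟨by rw [e1 0 (by omega), hC.1], fun t ht hm => ?_⟩
    rcases Nat.lt_succ_iff_lt_or_eq.1 ht with h | rfl
    · rw [e1 _ h]; exact hC.2 t h hm
    · rw [Function.update_self, hr]; exact hY hm
  have h1 := wf_le hC' X π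
  have h2 : mov (Function.update C (n + 1) (Y ∘ π)) (n + 1) =
      mov C n + ∑ i, dist (C n i) (Y (π i)) := by
    rw [mov, Finset.sum_range_succ, Function.update_self, e1 n le_rfl]
    congr 1
    refine Finset.sum_congr rfl fun t ht => ?_
    have := Finset.mem_range.1 ht
    rw [e1 t (by omega), e1 (t + 1) this]
  have h3 : pen ρ (Function.update C (n + 1) (Y ∘ π)) (n + 1) =
      pen ρ C n + if ρ.r n ∈ Set.range Y then 0 else ρ.p n := by
    rw [pen, Finset.sum_range_succ, Function.update_self]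
    congr 1
    · refine Finset.sum_congr rfl fun t ht => ?_
      rw [e1 (t + 1) (Finset.mem_range.1 ht)]
    · simp only [hr]
  rw [h2, h3, Function.update_self] at h1
  simp only [Function.comp_apply] at h1
  rw [Equiv.sum_comp π fun i => dist (Y i) (X i)] at h1
  linarith only [h1]

theorem le_wf_succ (hk : 0 < k) (n : ℕ) (X : Fin k → M) {y : ℝ}
    (h1 : ∀ i, y ≤ wf ρ A n (Function.update X i (ρ.r n)) + dist (ρ.r n) (X i))
    (h2 : ¬ ρ.must n → y ≤ wf ρ A n X + ρ.p n) : y ≤ wf ρ A (n + 1) X := by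
  refine le_wf hk fun C π hC => ?_
  have hC' : Feasible ρ A C n := ⟨hC.1, fun t ht => hC.2 t (by omega)⟩
  have h3 := wf_le hC' (C (n + 1) ∘ π.symm) π
  simp only [Function.comp_apply, Equiv.symm_apply_apply] at h3
  have h4 : ∑ i, dist (C (n + 1) i) (X (π i)) = ∑ i, dist ((C (n + 1) ∘ π.symm) i) (X i) := by
    rw [← Equiv.sum_comp π fun i => dist ((C (n + 1) ∘ π.symm) i) (X i)]; simp only [Function.comp_apply, Equiv.symm_apply_apply]
  rw [mov, pen, Finset.sum_range_succ, Finset.sum_range_succ, h4]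
  rw [mov, pen] at h3
  set Y := C (n + 1) ∘ π.symm with hY
  split_ifs with hr
  · obtain ⟨j, hj⟩ := hr
    have hj' : Y (π j) = ρ.r n := by simp [hY, hj]
    have h5 := wf_lip (ρ := ρ) (A := A) hk n (Function.update X (π j) (ρ.r n)) Y
    have h6 : ∑ i, dist (Y i) (Function.update X (π j) (ρ.r n) i) + dist (ρ.r n) (X (π j)) =
        ∑ i, dist (Y i) (X i) := by
      rw [← Finset.add_sum_erase _ _ (Finset.mem_univ (π j)),
        ← Finset.add_sum_erase _ (fun i => dist (Y i) (X i)) (Finset.mem_univ (π j)),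
        Function.update_self, hj', dist_self, zero_add, add_comm]
      congr 1
      exact Finset.sum_congr rfl fun i hi => by
        rw [Function.update_of_ne (Finset.ne_of_mem_erase hi)]
    linarith only [h1 (π j), h3, h5, h6]
  · have h5 := wf_lip (ρ := ρ) (A := A) hk n X Y
    linarith only [h2 fun hm => hr (hC.2 n (by omega) hm), h3, h5]

theorem wf_mono (hk : 0 < k) (n : ℕ) (X : Fin k → M) : wf ρ A n X ≤ wf ρ A (n + 1) X := by
  refine le_wf_succ hk n X (fun i => ?_) fun _ => by linarith only [ρ.p_nonneg n]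
  rw [← sum_update_left]; exact wf_lip hk n _ _

theorem wf_R1 (hk : 0 < k) (n : ℕ) (X : Fin k → M) (i : Fin k) :
    wf ρ A (n + 1) X ≤ wf ρ A n (Function.update X i (ρ.r n)) + dist (ρ.r n) (X i) := by
  have hm : ρ.r n ∈ Set.range (Function.update X i (ρ.r n)) := ⟨i, by simp⟩
  have := wf_succ_le (A := A) hk n X _ fun _ => hm
  rwa [if_pos hm, add_zero, sum_update_left] at this

theorem wf_R2 (hk : 0 < k) (n : ℕ) (X : Fin k → M) (h : ¬ ρ.must n) :
    wf ρ A (n + 1) X ≤ wf ρ A n X + ρ.p n := by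
  have := wf_succ_le (A := A) hk n X X fun hm => absurd hm h
  simp only [dist_self, Finset.sum_const_zero, add_zero] at this
  split_ifs at this <;> linarith only [ρ.p_nonneg n, this]

theorem wf_cover (hk : 0 < k) (n : ℕ) (X : Fin k → M) (i : Fin k) :
    wf ρ A (n + 1) (Function.update X i (ρ.r n)) ≤ wf ρ A n (Function.update X i (ρ.r n)) := by
  simpa using wf_R1 (ρ := ρ) (A := A) hk n (Function.update X i (ρ.r n)) i

open Classical in
theorem wf_rec (hk : 0 < k) (n : ℕ) {P : Type} (pt : P → M) (r : P) (hr : pt r = ρ.r n) :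
    Rec (fun x y => dist (pt x) (pt y)) (fun X => wf ρ A n (pt ∘ X))
      (fun X => wf ρ A (n + 1) (pt ∘ X)) r (if ρ.must n then 0 else Real.exp (-ρ.p n)) := by
  have : Nonempty (Fin k) := ⟨⟨0, hk⟩⟩
  refine ⟨fun X i => ?_, fun X => ?_, fun X => ?_, fun X => wf_mono hk n _⟩
  · rw [Function.comp_update, hr]; exact wf_R1 hk n _ i
  · split_ifs with hm
    · rw [zero_mul]; exact (Real.exp_pos _).le
    · rw [← Real.exp_add, Real.exp_le_exp]; linarith only [wf_R2 (A := A) hk n (pt ∘ X) hm]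
  · simp only [Function.comp_update, hr]
    obtain ⟨i, hi⟩ := Finite.exists_min fun i =>
      wf ρ A n (Function.update (pt ∘ X) i (ρ.r n)) + dist (ρ.r n) (pt (X i))
    split_ifs with hm
    · exact Or.inl ⟨i, le_wf_succ hk n _ hi fun h => absurd hm h⟩
    · have := le_wf_succ (A := A) hk n (pt ∘ X) (fun j => (min_le_left _ _).trans (hi j))
        fun _ => min_le_right _ _
      rcases min_le_iff.1 this with h | h
      · exact Or.inl ⟨i, h⟩
      · right; rw [← Real.exp_add, Real.exp_le_exp]; linarith only [h]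

theorem wf_init (hk : 0 < k) {P : Type} (pt : P → M) (B : Fin k → P) (hB : pt ∘ B = A) :
    Init (fun x y => dist (pt x) (pt y)) B (fun X => wf ρ A 0 (pt ∘ X)) := by
  subst hB
  refine ⟨fun X π => ?_, fun X => ?_⟩
  · simpa only [mov, range_zero, Function.comp_apply, dist_self, sum_const_zero, pen, Set.mem_range, sum_empty, add_zero, zero_add] using wf_le (ρ := ρ) (A := pt ∘ B) (C := fun _ => pt ∘ B) (n := 0)
      ⟨rfl, by simp only [not_lt_zero, Set.mem_range, Function.comp_apply, IsEmpty.forall_iff, implies_true]⟩ (pt ∘ X) π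
  · obtain ⟨π, hπ⟩ := Finite.exists_min fun π : Equiv.Perm (Fin k) =>
      ∑ i, dist (pt (B i)) (pt (X (π i)))
    refine ⟨π, le_wf hk fun C σ hC => ?_⟩
    simpa only [mov, range_zero, sum_empty, pen, Set.mem_range, add_zero, hC.1, Function.comp_apply, zero_add] using hπ σ

/-- The extended cost bound. -/
theorem ext_le {h : ℕ} (hh : 0 < h) (e : Fin h ↪ Fin k) (n : ℕ) (Z : ℕ → Fin k → M)
    (X : Fin h → M) : ∑ t ∈ range n, (wf ρ A (t + 1) (Z t) - wf ρ A t (Z t)) ≤
      (h + 1) * wf ρ (A ∘ e) n X - clique X + clique (A ∘ e) := by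
  classical
  have hk : 0 < k := Fin.pos (e ⟨0, hh⟩)
  let pt : Fin k ⊕ Fin h ⊕ (Fin n × Option (Fin k)) → M :=
    Sum.elim A (Sum.elim X fun q => q.2.elim (ρ.r q.1) (Z q.1))
  have := core (d := fun x y => dist (pt x) (pt y)) e (fun _ _ => dist_comm _ _)
    (fun _ _ _ => dist_triangle _ _ _) (fun _ => dist_self _) Sum.inl n
    (fun t X => wf ρ A t (pt ∘ X)) (fun t X => wf ρ (A ∘ e) t (pt ∘ X))
    (fun t => if ht : t < n then Sum.inr (Sum.inr (⟨t, ht⟩, none)) else Sum.inl ⟨0, hk⟩)
    (fun t => if ρ.must t then 0 else Real.exp (-ρ.p t))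
    (fun t => by
      split_ifs
      · exact le_rfl
      · exact (Real.exp_pos _).le)
    (fun t => by
      split_ifs
      · exact zero_le_one
      · exact Real.exp_le_one_iff.2 (neg_nonpos.2 (ρ.p_nonneg t)))
    (fun x => by
      by_cases hx : ∃ j, Sum.inr (Sum.inl j) = x
      · exact ⟨fun j => Sum.inr (Sum.inl j), fun _ _ h => by simpa using h, hx⟩
      · refine ⟨Function.update (fun j => Sum.inr (Sum.inl j)) ⟨0, hh⟩ x, ?_, ⟨0, hh⟩, by simp⟩
        intro a b hab
        by_cases ha : a = ⟨0, hh⟩ <;> by_cases hb : b = ⟨0, hh⟩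
        · rw [ha, hb]
        · rw [ha, Function.update_self, Function.update_of_ne hb] at hab
          exact absurd ⟨b, hab.symm⟩ hx
        · rw [hb, Function.update_self, Function.update_of_ne ha] at hab
          exact absurd ⟨a, hab⟩ hx
        · rw [Function.update_of_ne ha, Function.update_of_ne hb] at hab
          simpa using hab)
    (wf_init hk pt _ rfl) (wf_init hh pt _ rfl)
    (fun t ht => wf_rec hk t pt _ (by rw [dif_pos ht]; rfl))
    (fun t ht => wf_rec hh t pt _ (by rw [dif_pos ht]; rfl))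
    (fun t i => if ht : t < n then Sum.inr (Sum.inr (⟨t, ht⟩, some i)) else Sum.inl i)
    (fun t ht a b hab => by simpa [ht] using hab)
    (fun j => Sum.inr (Sum.inl j)) (fun _ _ h => by simpa using h)
  rw [Fintype.card_fin] at this
  refine le_of_eq_of_le (Finset.sum_congr rfl fun t ht => ?_) this
  have e1 : (pt ∘ fun i => if ht : t < n then Sum.inr (Sum.inr (⟨t, ht⟩, some i)) else Sum.inl i) =
      Z t := by
    funext i; simp [Finset.mem_range.1 ht, pt]
  rw [e1]

theorem clique_nonneg (X : Fin k → M) : 0 ≤ clique X :=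
  div_nonneg (Finset.sum_nonneg fun _ _ => Finset.sum_nonneg fun _ _ => dist_nonneg) two_pos.le

theorem clique_sub (X Y : Fin k → M) :
    clique X - clique Y ≤ (k - 1) * ∑ i, dist (X i) (Y i) := by
  have h : ∀ i j, dist (X i) (X j) - dist (Y i) (Y j) ≤ dist (X i) (Y i) + dist (X j) (Y j) -
      if i = j then 2 * dist (X i) (Y i) else 0 := by
    intro i j
    split_ifs with hij
    · subst hij; simp only [dist_self, sub_self, sub_nonneg]; linarith
    · linarith [dist_triangle4_right (X i) (X j) (Y i) (Y j)]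
  have := Finset.sum_le_sum fun i (_ : i ∈ univ) => Finset.sum_le_sum fun j (_ : j ∈ univ) => h i j
  simp only [Finset.sum_sub_distrib, Finset.sum_add_distrib, Finset.sum_ite_eq, Finset.mem_univ,
    if_true, Finset.sum_const, Finset.card_univ, Fintype.card_fin, nsmul_eq_mul,
    ← Finset.mul_sum] at this
  unfold clique
  linarith only [this]

theorem ext_le_opt {h : ℕ} (hh : 0 < h) (e : Fin h ↪ Fin k) (n : ℕ) (Z : ℕ → Fin k → M) :
    ∑ t ∈ range n, (wf ρ A (t + 1) (Z t) - wf ρ A t (Z t)) ≤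
      (h + 1) * opt ρ (A ∘ e) n + min (clique (A ∘ e)) ((h - 1) * opt ρ (A ∘ e) n) := by
  have hpos : (0 : ℝ) < h := by exact_mod_cast hh
  have h1 : (1 : ℝ) ≤ h := by exact_mod_cast hh
  have key : ∀ C, Feasible ρ (A ∘ e) C n →
      ∑ t ∈ range n, (wf ρ A (t + 1) (Z t) - wf ρ A t (Z t)) ≤
        (h + 1) * (mov C n + pen ρ C n) - clique (C n) + clique (A ∘ e) := by
    intro C hC
    have h2 := wf_le hC (C n) 1
    simp only [Equiv.Perm.coe_one, id_eq, dist_self, Finset.sum_const_zero, add_zero] at h2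
    have h3 := ext_le (ρ := ρ) (A := A) hh e n Z (C n)
    have := mul_le_mul_of_nonneg_left h2 (show (0 : ℝ) ≤ h + 1 by positivity)
    linarith only [h3, this]
  rw [← min_add_add_left]
  refine le_min ?_ ?_
  · rw [← sub_le_iff_le_add, ← div_le_iff₀' (by positivity)]
    refine le_opt hh fun C hC => ?_
    rw [div_le_iff₀' (by positivity)]
    linarith only [key C hC, clique_nonneg (C n)]
  · rw [← add_mul, ← div_le_iff₀' (by linarith)]
    refine le_opt hh fun C hC => ?_
    rw [div_le_iff₀' (by linarith)]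
    have h2 := clique_sub (A ∘ e) (C n)
    have h3 : ∑ i, dist ((A ∘ e) i) (C n i) ≤ mov C n := by
      rw [mov, Finset.sum_comm, ← hC.1]
      exact Finset.sum_le_sum fun i _ => dist_le_range_sum_dist (fun t => C t i) n
    have h4 := mul_le_mul_of_nonneg_left (h3.trans (le_add_of_nonneg_right (pen_nonneg (ρ := ρ) C n)))
      (show (0 : ℝ) ≤ h - 1 by linarith only [h1])
    linarith [key C hC]

theorem run_le (hk : 0 < k) {S : ℕ → Fin k → M} {n : ℕ} (hS : IsWFA ρ A S n) :
    mov S n + opt ρ A n ≤ ∑ t ∈ range n, (wf ρ A (t + 1) (S t) - wf ρ A t (S t)) ∧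
      pen ρ S n ≤ ∑ t ∈ range n, (wf ρ A (t + 1) (S t) - wf ρ A t (S t)) := by
  classical
  have step : ∀ t < n, ∑ i, dist (S t i) (S (t + 1) i) + wf ρ A (t + 1) (S (t + 1)) ≤
      wf ρ A (t + 1) (S t) ∧ (if ρ.r t ∈ Set.range (S (t + 1)) then 0 else ρ.p t) ≤
        wf ρ A (t + 1) (S t) - wf ρ A t (S t) := by
    intro t ht
    obtain ⟨m, h1, h2, h3⟩ := hS.2 t ht
    have hm : m ≤ wf ρ A (t + 1) (S t) := le_wf_succ hk t _ (fun i => by
      linarith only [h1 i, wf_cover (ρ := ρ) (A := A) hk t (S t) i, dist_comm (S t i) (ρ.r t)]) h2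
    have hmono := wf_mono (ρ := ρ) (A := A) hk t (S t)
    rcases h3 with ⟨j, h3, h4⟩ | ⟨-, h3, h4⟩
    · rw [h3, if_pos ⟨j, by simp⟩]
      have := sum_update_left (S t) j (ρ.r t)
      simp only [dist_comm (Function.update _ _ _ _)] at this
      rw [this, dist_comm]
      constructor <;> linarith only [hm, h4, hmono]
    · rw [h3]
      refine ⟨by simp only [dist_self, sum_const_zero, zero_add, Std.le_refl], ?_⟩
      split_ifs <;> linarith only [hmono, hm, h4]
  constructor
  · have h1 : ∀ m ≤ n, mov S m + wf ρ A m (S m) ≤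
        ∑ t ∈ range m, (wf ρ A (t + 1) (S t) - wf ρ A t (S t)) := by
      intro m
      induction m with
      | zero =>
        intro _
        simpa only [mov, range_zero, sum_empty, hS.1, zero_add, sum_sub_distrib, sub_self, dist_self, sum_const_zero, pen, Set.mem_range, add_zero, Equiv.Perm.coe_one, id_eq] using wf_le (ρ := ρ) (A := A) (C := fun _ => A) (n := 0)
          ⟨rfl, by simp only [not_lt_zero, Set.mem_range, IsEmpty.forall_iff, implies_true]⟩ A 1
      | succ m ih =>
        intro hm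
        have := ih (by omega)
        rw [mov] at this ⊢
        rw [Finset.sum_range_succ, Finset.sum_range_succ]
        linarith only [(step m hm).1, this]
    have h2 : opt ρ A n ≤ wf ρ A n (S n) := le_wf hk fun C π hC =>
      (opt_le hC).trans (le_add_of_nonneg_right (Finset.sum_nonneg fun _ _ => dist_nonneg))
    linarith [h1 n le_rfl]
  · exact Finset.sum_le_sum fun t ht => by convert (step t (Finset.mem_range.1 ht)).2

end Pool.Agent.MP_ea4e37_lc.H12
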